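import Pool.Agent.H93.SY.PAIR
import Pool.Agent.H85.SC.NEG
import Pool.Agent.H85.SC.Main

/-!
Branch half: no synthesis for the relation with classes of at most two elements.
-/

set_option autoImplicit false

open MeasureTheory AddCircle

namespace Pool.Agent.H93.SY

open Finset Pool.Agent.H85.SC Pool.Agent.H87.Synth Pool.Agent.H27.SC

theorem fPRT : T_PRT := Pool.Agent.H19.SC.PRT_proof
theorem fPCC : T_PCC := Pool.Agent.H27.SC.pcc fFIB fLAB
theorem fSTS : T_STS := Pool.Agent.H24.SC.sts fLAB fDSJ fCNT fCNB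
theorem fPPR : T_PPR := Pool.Agent.H87.SC.ppr fPRT fSTS fLAB
theorem fVVS : T_VVS := Pool.Agent.H87.SC.vvs Pool.Agent.H19.SC.NNA_proof
theorem fAPD : T_APD := Pool.Agent.H37.SC.apd Pool.Agent.H24.SC.cca
theorem fPVL : T_PVL := Pool.Agent.H14.SC.pvl fVVS fAPD fLAB
theorem fROO : T_ROO := Pool.Agent.H29.SC.roo Pool.Agent.H29.SC.alt
theorem fFAM : T_FAM := Pool.Agent.H99.SC.fam (Pool.Agent.H29.SC.fap fROO) Pool.Agent.H29.SC.eap
  Pool.Agent.H29.SC.ech Pool.Agent.H29.SC.eml fCNB Pool.Agent.H19.SC.DIV_proof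
  Pool.Agent.H19.SC.NNA_proof Pool.Agent.H19.SC.SLT_proof
theorem fDEC : T_DEC := Pool.Agent.H24.SC.dec fPRT fLAB fCNT fCNB
theorem fTOT : T_TOT := Pool.Agent.H87.SC.tot fDEC fFAM
theorem fMUL : T_MUL := Pool.Agent.H4.SC.mul
theorem fTRP : T_TRP := Pool.Agent.H65.SC.trp Pool.Agent.H19.SC.NNA_proof
theorem fAPM : T_APM := Pool.Agent.H65.SC.apm Pool.Agent.H29.SC.eap Pool.Agent.H29.SC.ech
  Pool.Agent.H65.SC.emb fMUL
theorem fPCE : T_PCE := Pool.Agent.H18.SC.pce fTRP fAPM fMUL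
theorem fPTH : T_PTH := Pool.Agent.H99.SC.pth fPCE fPVL

/-- away from the absorbing points the weights agree -/
theorem GG2_eq {S : Set ℕ} {z : ℤ} (h : ∀ n i s, lab S z = Lab.inn n i s → z ∉ FA n i s) :
    GG2 S z = GG S z := by
  unfold GG2
  rcases hlab : lab S z with w | ⟨n, i, s⟩ | ⟨n, i⟩ | ⟨n, i⟩
  · rfl
  · simp only [h n i s hlab, if_false]
  · rfl
  · rfl

theorem GG2_zero {S : Set ℕ} {z : ℤ} (h : ∀ n i, n ∈ S → ¬ Reg n i z) : GG2 S z = 0 := by
  have h1 := fLAB.2.1 S z h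
  unfold GG2
  rw [h1]
  exact fLAB.2.2.2.2.1 S z h

/-- the difference of the weights over the absorbing points -/
theorem sum_diff_FA {S : Set ℕ} (hS : IsTree S) {n i : ℕ} (hn : n ∈ S) (hV : Valid n i)
    (hi : i ≠ 1) {s : ℤ} (hs : s = 1 ∨ s = -1) (h : ℤ → ℂ) :
    ∑ z ∈ FA n i s, (GG2 S z - GG S z) * h z =
      (s : ℂ) * (((2 : ℂ) ^ lvl n i / cnt n i) * ∑ z ∈ FA n i s, h z -
        ((2 : ℂ) ^ lvl n i / (EM n i s).card) * ∑ z ∈ TA n i s, h z) := by
  classical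
  obtain ⟨t1, t2, -⟩ := TA_spec n i s hV hi hs
  have h1 : ∀ z ∈ FA n i s, (GG2 S z - GG S z) * h z =
      (s : ℂ) * ((2 : ℂ) ^ lvl n i / cnt n i) * h z -
        (if z ∈ TA n i s then (s : ℂ) * ((2 : ℂ) ^ lvl n i / (EM n i s).card) * h z else 0) := by
    intro z hz
    have hlab : lab S z = Lab.inn n i s := ((fFIB S hS).1 n i s z).2 ⟨hn, hV, hi, Or.inl hz⟩
    have e1 : GG2 S z = if z ∈ TA n i s then
        -((2 : ℂ) ^ lvl n i / (EM n i s).card) * (s : ℂ) else 0 := by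
      unfold GG2
      rw [hlab]
      simp only [hz, if_true]
    rw [e1, GG_FA fLAB hn hi hs hz]
    split_ifs <;> ring
  rw [Finset.sum_congr rfl h1, Finset.sum_sub_distrib, ← Finset.sum_filter]
  have h2 : (FA n i s).filter (fun z => z ∈ TA n i s) = TA n i s := by
    ext z
    rw [Finset.mem_filter]
    exact ⟨fun h => h.2, fun h => ⟨t1 h, h⟩⟩
  rw [h2, ← Finset.mul_sum, ← Finset.mul_sum]
  ring

/-- the difference of the weights over one region -/
theorem sum_diff_RS {S : Set ℕ} (hS : IsTree S) {n i : ℕ} (hn : n ∈ S) (hV : Valid n i)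
    (h : ℤ → ℂ) :
    ∑ z ∈ RS n i, (GG2 S z - GG S z) * h z =
      ∑ z ∈ FA n i 1, (GG2 S z - GG S z) * h z + ∑ z ∈ FA n i (-1), (GG2 S z - GG S z) * h z := by
  rw [fDSJ.2.2 n i hV fun z => (GG2 S z - GG S z) * h z]
  have hR : ∀ z, Reg n i z → ∀ n' i' s', z ∈ FA n' i' s' → n' = n ∧ i' = i := by
    intro z hz n' i' s' h'
    obtain ⟨h1, h2⟩ := Pool.Agent.H19.SC.UNQ_proof _ _ _ _ z (Pool.Agent.H27.SC.mem_FA.1 h').1 hz
    exact ⟨h1, h2⟩
  have hSz : ∀ s z, z ∈ FS n i s → GG2 S z = GG S z := by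
    intro s z hz
    apply GG2_eq
    intro n' i' s' _ h'
    obtain ⟨h1, h2, h3, h4⟩ := mem_FS.1 hz
    obtain ⟨rfl, rfl⟩ := hR z h1 n' i' s' h'
    obtain ⟨-, k1, k2, k3⟩ := Pool.Agent.H27.SC.mem_FA.1 h'
    have q := (fLAB.2.2.2.2.2 _ _ z h1).1
    omega
  have hDz : ∀ s z, z ∈ FD n i s → GG2 S z = GG S z := by
    intro s z hz
    apply GG2_eq
    intro n' i' s' _ h'
    obtain ⟨h1, h2, h3⟩ := mem_FD.1 hz
    obtain ⟨rfl, rfl⟩ := hR z h1 n' i' s' h'
    obtain ⟨-, k1, k2, k3⟩ := Pool.Agent.H27.SC.mem_FA.1 h'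
    exact h2 (k1.trans k2.symm)
  have e1 : gS (fun z => (GG2 S z - GG S z) * h z) n i = 0 := by
    unfold gS
    rw [Finset.sum_eq_zero fun z hz => by rw [hSz 1 z hz, sub_self, zero_mul],
      Finset.sum_eq_zero fun z hz => by rw [hSz (-1) z hz, sub_self, zero_mul], add_zero]
  have e2 : gD (fun z => (GG2 S z - GG S z) * h z) n i = 0 := by
    unfold gD
    rw [Finset.sum_eq_zero fun z hz => by rw [hDz 1 z hz, sub_self, zero_mul],
      Finset.sum_eq_zero fun z hz => by rw [hDz (-1) z hz, sub_self, zero_mul], add_zero]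
  rw [e1, e2, add_zero, add_zero]
  rfl

/-- at the root station the weights agree -/
theorem diff_root {S : Set ℕ} {n : ℕ} (s : ℤ) (h : ℤ → ℂ) (hn : n ∈ S) :
    ∑ z ∈ FA n 1 s, (GG2 S z - GG S z) * h z = 0 := by
  refine Finset.sum_eq_zero fun z hz => ?_
  obtain ⟨hR, k1, k2, k3⟩ := Pool.Agent.H27.SC.mem_FA.1 hz
  have hlab : lab S z = Lab.sg z := by
    rw [fLAB.1 S n 1 z hn hR]
    unfold labAt
    rw [if_pos (k1.trans k2.symm), if_pos (k1.trans k3.symm), if_pos rfl]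
  have : GG2 S z = GG S z := by
    apply GG2_eq
    intro n' i' s' h1
    rw [hlab] at h1
    exact Lab.noConfusion h1
  rw [this, sub_self, zero_mul]

theorem sum_diff {S : Set ℕ} (h : ℤ → ℂ) (M : ℕ) :
    ∑ z ∈ Finset.Ico (0 : ℤ) (NN M), (GG2 S z - GG S z) * h z =
      ∑ p ∈ stn S M, ∑ z ∈ RS p.1 p.2, (GG2 S z - GG S z) * h z := by
  refine fPRT S _ (fun z hz => ?_) M
  rw [GG2_zero hz, fLAB.2.2.2.2.1 S z hz, sub_self, zero_mul]

theorem mem_stn {S : Set ℕ} {M : ℕ} {p : ℕ × ℕ} (hp : p ∈ stn S M) :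
    p.1 ∈ S ∧ Valid p.1 p.2 ∧ slot p.1 p.2 < M := by
  classical
  unfold stn at hp
  rw [Finset.mem_filter] at hp
  exact hp.2

/-- the pairing with the function of a branch -/
theorem ppr2 {S : Set ℕ} (hS : IsTree S) (v a : ℕ → ℕ) (hb : IsBr S v a) (F : ℤ → ℂ)
    (hF : ∀ n i z, Reg n i z → F z = pv v a n i z) (M : ℕ) (hM : 2 ≤ M) :
    ∑ z ∈ Finset.Ico (0 : ℤ) (NN M), GG2 S z * F z = 2 := by
  have h1 := fPPR S hS v a hb F hF M hM
  have hFc : ∀ m n, rel S m n → F m = F n := fPCC S hS v a hb F hF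
  have h2 : ∑ z ∈ Finset.Ico (0 : ℤ) (NN M), (GG2 S z - GG S z) * F z = 0 := by
    rw [sum_diff]
    refine Finset.sum_eq_zero fun p hp => ?_
    obtain ⟨hn, hV, -⟩ := mem_stn hp
    rw [sum_diff_RS hS hn hV]
    have key : ∀ s : ℤ, s = 1 ∨ s = -1 →
        ∑ z ∈ FA p.1 p.2 s, (GG2 S z - GG S z) * F z = 0 := by
      intro s hs
      by_cases hi : p.2 = 1
      · rw [hi]
        exact diff_root s F hn
      · rw [sum_diff_FA hS hn hV hi hs]
        obtain ⟨t1, t2, -⟩ := TA_spec p.1 p.2 s hV hi hs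
        have hcnt := (fCNT p.1 p.2 hV s hs).1
        have hc0 := (fCNB p.1 p.2 hV).1
        have hne : (FA p.1 p.2 s).Nonempty := by
          rw [← Finset.card_pos, hcnt]; exact hc0
        obtain ⟨z0, hz0⟩ := hne
        have hlab : ∀ z ∈ FA p.1 p.2 s, lab S z = Lab.inn p.1 p.2 s := fun z hz =>
          ((fFIB S hS).1 p.1 p.2 s z).2 ⟨hn, hV, hi, Or.inl hz⟩
        have hconst : ∀ z ∈ FA p.1 p.2 s, F z = F z0 := by
          intro z hz
          refine hFc z z0 ?_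
          rw [Pool.Agent.H41.SC.rel_iff, hlab z hz, hlab z0 hz0]
        have e1 : ∑ z ∈ FA p.1 p.2 s, F z = (cnt p.1 p.2 : ℂ) * F z0 := by
          rw [Finset.sum_congr rfl hconst, Finset.sum_const, hcnt, nsmul_eq_mul]
        have e2 : ∑ z ∈ TA p.1 p.2 s, F z = ((EM p.1 p.2 s).card : ℂ) * F z0 := by
          rw [Finset.sum_congr rfl fun z hz => hconst z (t1 hz), Finset.sum_const, t2,
            nsmul_eq_mul]
        have n1 : (cnt p.1 p.2 : ℂ) ≠ 0 := by exact_mod_cast hc0.ne'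
        have n2 : ((EM p.1 p.2 s).card : ℂ) ≠ 0 := by
          have hE : 0 < (EM p.1 p.2 s).card := by
            rcases edge_cases p.1 p.2 hV hi with ⟨b, h3, hb⟩ | ⟨b, n', h3, h4, hb⟩ | he
            · rw [h3, EM_stay p.1 b s hb, (fCNT _ _ (valid_stay p.1 b hb) s hs).2.1]
              exact (fCNB _ _ (valid_stay p.1 b hb)).1
            · rw [h3, h4, EM_top n' b s hb, (fCNT _ _ (valid_top n' b hb) s hs).2.2]
              have := (fCNB _ _ (valid_top n' b hb)).1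
              omega
            · rw [EM_next p.1 p.2 s he, (fCNT _ _ (valid_pred p.1 p.2 hV he) s hs).2.2]
              have := (fCNB _ _ (valid_pred p.1 p.2 hV he)).1
              omega
          exact_mod_cast hE.ne'
        rw [e1, e2]
        field_simp
        ring
    rw [key 1 (Or.inl rfl), key (-1) (Or.inr rfl), add_zero]
  have h3 : ∑ z ∈ Finset.Ico (0 : ℤ) (NN M), GG2 S z * F z =
      ∑ z ∈ Finset.Ico (0 : ℤ) (NN M), GG S z * F z +
      ∑ z ∈ Finset.Ico (0 : ℤ) (NN M), (GG2 S z - GG S z) * F z := by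
    rw [← Finset.sum_add_distrib]
    exact Finset.sum_congr rfl fun z _ => by ring
  rw [h3, h1, h2, add_zero]

/-- the new weights are uniformly bounded functionals -/
theorem tot2 {S : Set ℕ} (hS : IsTree S) (M : ℕ) (w : ℂ) (hw : ‖w‖ = 1) :
    ‖∑ z ∈ Finset.Ico (0 : ℤ) (NN M), GG2 S z * w ^ z‖ ≤ 204 := by
  have h1 := fTOT S M w hw
  have h2 : ‖∑ z ∈ Finset.Ico (0 : ℤ) (NN M), (GG2 S z - GG S z) * w ^ z‖ ≤ 4 := by
    rw [sum_diff]
    have key : ∀ p ∈ stn S M, ‖∑ z ∈ RS p.1 p.2, (GG2 S z - GG S z) * w ^ z‖ ≤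
        2 * (1 / 2 : ℝ) ^ slot p.1 p.2 := by
      intro p hp
      obtain ⟨hn, hV, -⟩ := mem_stn hp
      rw [sum_diff_RS hS hn hV]
      have key2 : ∀ s : ℤ, s = 1 ∨ s = -1 →
          ‖∑ z ∈ FA p.1 p.2 s, (GG2 S z - GG S z) * w ^ z‖ ≤ (1 / 2 : ℝ) ^ slot p.1 p.2 := by
        intro s hs
        by_cases hi : p.2 = 1
        · rw [hi, diff_root s _ hn, norm_zero]
          positivity
        · rw [sum_diff_FA hS hn hV hi hs, norm_mul]
          have hs1 : ‖(s : ℂ)‖ = 1 := by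
            rcases hs with rfl | rfl <;> simp
          rw [hs1, one_mul]
          exact (TA_spec p.1 p.2 s hV hi hs).2.2 w hw
      refine (norm_add_le _ _).trans ?_
      have := key2 1 (Or.inl rfl)
      have := key2 (-1) (Or.inr rfl)
      linarith
    refine (norm_sum_le _ _).trans ((Finset.sum_le_sum key).trans ?_)
    have hinj : Set.InjOn (fun p : ℕ × ℕ => slot p.1 p.2) (stn S M : Set (ℕ × ℕ)) := by
      intro p hp q hq hpq
      obtain ⟨-, hV, -⟩ := mem_stn (Finset.mem_coe.1 hp)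
      obtain ⟨-, hV', -⟩ := mem_stn (Finset.mem_coe.1 hq)
      obtain ⟨h3, h4⟩ := Pool.Agent.H19.SC.SLT_proof.1 _ _ _ _ hV hV' hpq
      exact Prod.ext h3 h4
    have e1 : ∑ p ∈ stn S M, 2 * (1 / 2 : ℝ) ^ slot p.1 p.2 =
        2 * ∑ r ∈ (stn S M).image (fun p : ℕ × ℕ => slot p.1 p.2), (1 / 2 : ℝ) ^ r := by
      rw [Finset.sum_image hinj, Finset.mul_sum]
    rw [e1]
    have hsum : Summable (fun r : ℕ => (1 / 2 : ℝ) ^ r) :=
      summable_geometric_of_lt_one (by norm_num) (by norm_num)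
    have h3 : ∑ r ∈ (stn S M).image (fun p : ℕ × ℕ => slot p.1 p.2), (1 / 2 : ℝ) ^ r ≤
        ∑' r : ℕ, (1 / 2 : ℝ) ^ r :=
      hsum.sum_le_tsum _ fun r _ => by positivity
    rw [tsum_geometric_of_lt_one (by norm_num) (by norm_num)] at h3
    norm_num at h3
    linarith
  have h3 : ∑ z ∈ Finset.Ico (0 : ℤ) (NN M), GG2 S z * w ^ z =
      ∑ z ∈ Finset.Ico (0 : ℤ) (NN M), GG S z * w ^ z +
      ∑ z ∈ Finset.Ico (0 : ℤ) (NN M), (GG2 S z - GG S z) * w ^ z := by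
    rw [← Finset.sum_add_distrib]
    exact Finset.sum_congr rfl fun z _ => by ring
  rw [h3]
  refine (norm_add_le _ _).trans ?_
  linarith

/-- **branch half** -/
theorem neg2 {S : Set ℕ} (hS : IsTree S) (hBr : Branch S) :
    ¬ HasSynthesis (orbit (pis S) (pis_pis hS)) := by
  obtain ⟨v, hv0, hvS, hv⟩ := hBr
  choose a ha using hv
  have hbr : IsBr S v a := ⟨hv0, hvS, ha⟩
  obtain ⟨f, hf⟩ := fPTH S v a hbr
  have hfc : ∀ m n, rel S m n → coeff f m = coeff f n := fPCC S hS v a hbr (coeff f) hf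
  have hpi : ∀ z, coeff f (pis S z) = coeff f z := by
    intro z
    refine hfc _ _ ?_
    rw [Pool.Agent.H41.SC.rel_iff, lab_pis hS]
  have hfA : f ∈ Amax (orbit (pis S) (pis_pis hS)) := by
    rintro m n (h | h)
    · rw [h]
    · rw [h, hpi]
  -- functionals
  let Φ : ℕ → (L1 →L[ℂ] ℂ) := fun M => ∑ z ∈ Finset.Ico (0 : ℤ) (NN M), GG2 S z • coeffL z
  have hΦ : ∀ M g, Φ M g = ∑ z ∈ Finset.Ico (0 : ℤ) (NN M), GG2 S z * coeff g z := by
    intro M g
    simp only [Φ, _root_.sum_apply, smul_apply, coeffL_apply, smul_eq_mul]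
  have hb : ∀ M g, ‖Φ M g‖ ≤ 204 * ‖g‖ := by
    intro M g
    rw [hΦ]
    refine norm_functional_le _ _ _ ?_ g
    intro x
    have h1 := tot2 hS M (fourier (-1) x) (fourier_norm_apply _ _)
    have h2 : ∑ z ∈ Finset.Ico (0 : ℤ) (NN M), GG2 S z * (fourier (-z) x : ℂ) =
        ∑ z ∈ Finset.Ico (0 : ℤ) (NN M), GG2 S z * (fourier (-1) x : ℂ) ^ z :=
      Finset.sum_congr rfl fun z _ => by rw [fourier_neg_zpow]
    rw [h2]
    exact h1
  obtain ⟨Ψ, hΨ⟩ := Pool.Agent.H4.SC.lim Φ 204 hb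
  have hneg : ∀ w : ℤ, w < 0 → GG2 S w = 0 := by
    intro w hw
    apply GG2_zero
    intro n i _ hr
    have := hr.2.1
    have h0 : (0 : ℤ) ≤ (NN (slot n i) : ℤ) := Int.natCast_nonneg _
    linarith
  -- values at the exponentials
  have hex : ∀ n : ℤ, Ψ (ex n) = GG2 S n := by
    intro n
    refine hΨ _ _ ⟨n.natAbs + 1, fun M hM => ?_⟩
    rw [hΦ]
    have e1 : ∀ z, GG2 S z * coeff (ex n) z = if z = n then GG2 S n else 0 := by
      intro z
      rw [coeff_ex]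
      by_cases h : n = z
      · rw [if_pos h, if_pos h.symm, mul_one, h]
      · rw [if_neg h, if_neg (fun h' => h h'.symm), mul_zero]
    rw [Finset.sum_congr rfl fun z _ => e1 z, Finset.sum_ite_eq']
    by_cases hn : n < 0
    · rw [hneg n hn]
      simp
    · rw [if_pos]
      rw [Finset.mem_Ico]
      have h3 := Pool.Agent.H19.SC.NNA_proof.2.2.2 M
      refine ⟨not_lt.1 hn, ?_⟩
      have h4 : n ≤ n.natAbs := Int.le_natAbs
      have h5 : (M : ℤ) + 2 ≤ NN M := by exact_mod_cast h3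
      have h6 : (n.natAbs : ℤ) + 1 ≤ M := by exact_mod_cast hM
      linarith
  refine not_synthesis (orbit (pis S) (pis_pis hS)) ?_ Ψ ?_ f hfA ?_
  · intro n
    refine (Set.toFinite ({n, pis S n} : Set ℤ)).subset ?_
    rintro m (h | h)
    · left; exact h
    · right; exact h
  · intro C n₀ hC
    have hCe : C = {n₀, pis S n₀} := by
      ext m
      rw [hC, Finset.mem_insert, Finset.mem_singleton]
      exact Iff.rfl
    rw [hCe, eS]
    by_cases h : n₀ = pis S n₀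
    · rw [← h, Finset.pair_eq_singleton, Finset.sum_singleton, hex]
      have := GG2_pis hS n₀
      rw [← h] at this
      have h2 : (2 : ℂ) * GG2 S n₀ = 0 := by linear_combination this
      exact (mul_eq_zero.1 h2).resolve_left two_ne_zero
    · rw [Finset.sum_pair h, map_add, hex, hex, GG2_pis hS]
      ring
  · have h2 : Ψ f = 2 := by
      refine hΨ f 2 ⟨2, fun M hM => ?_⟩
      rw [hΦ]
      exact ppr2 hS v a hbr (coeff f) hf M hM
    rw [h2]
    exact two_ne_zero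

end Pool.Agent.H93.SY
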