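import Pool.Agent.H93.SY.NEG2
import Pool.Agent.H85.SC.LEK
import Pool.Agent.H85.SC.FINAL
import Pool.Agent.H89.SC.NOD

/-!
Well founded half: synthesis for the relation with classes of at most two elements.
-/

set_option autoImplicit false

open Filter Topology

namespace Pool.Agent.H93.SY

open Pool.Agent.H85.SC Pool.Agent.H87.Synth Pool.Agent.H89.SC

theorem fTEL : T_TEL := Pool.Agent.H27.SC.tel fDSJ
theorem fSUP : T_SUP := Pool.Agent.H76.SC.sup fLAB fVVS fAPD Pool.Agent.H19.SC.UNQ_proof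
  Pool.Agent.H19.SC.NNA_proof
theorem fSUX : T_SUX := Pool.Agent.H76.SC.sux fLAB fDSJ fVVS fAPD Pool.Agent.H19.SC.NNA_proof
theorem fVLM : T_VLM := Pool.Agent.H65.SC.vlm Pool.Agent.H19.SC.NNA_proof fTRP fMUL fVVS
theorem fKLM : T_KLM := Pool.Agent.H4.SC.klm fAPM fMUL
theorem fSGV : T_SGV := Pool.Agent.H41.SC.sgvm fLAB
theorem fKSP : T_KSP := Pool.Agent.H76.SC.K.ksp fAPD fSGV fKLM fAPM fMUL fLAB

theorem nod2 (hTEL : T_TEL) (hSUP : T_SUP) (hSUX : T_SUX) (hAPM : T_APM) (hTRP : T_TRP)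
    (hVLM : T_VLM) (hMUL : T_MUL) (hVVS : T_VVS) (hNNA : T_NNA) (S : Set ℕ) (hS : IsTree S)
    (Λ : L1 →L[ℂ] ℂ) (f : L1) (hR : Rels S (fun z => coeff f z * Λ (ex z))) (n : ℕ) (hn : n ∈ S)
    (x y : L1) (hx : Act (ind (inh n)) f x) (hy : Act (ind (ing n)) f y) :
    Tendsto (fun a => -∑ b ∈ kids S n a,
        gA (fun z => coeff f z * Λ (ex z)) (n + 2 ^ b) (2 ^ (b + 1))) atTop
      (𝓝 (Λ x + Λ y - gA (fun z => coeff f z * Λ (ex z)) n (2 ^ Nat.size n))) := by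
  obtain ⟨hMnn, -, hMadd, -, -, -, -, hMex, hMbd, -⟩ := hMUL
  obtain ⟨-, -, hAinh, hAing, -, hAtr⟩ := hAPM
  obtain ⟨-, hTR⟩ := hTRP
  set g : ℤ → ℂ := fun z => coeff f z * Λ (ex z) with hg
  have hxy : Act (fun z => ind (inh n) z + ind (ing n) z) f (x + y) := fun z => by
    rw [coeff_add, hx z, hy z]; ring
  choose F hF _ using fun r => hMex _ _ (hTR r) f
  have hMs : MulB (fun z => ind (inh n) z + ind (ing n) z) (1 + 1) := hMadd _ _ _ _ (hAinh n) (hAing n)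
  choose P hP _ using fun r => hMex _ _ hMs (F r)
  obtain ⟨C, hC⟩ := hAtr n
  choose Q hQ _ using fun (a r : ℕ) => hMex _ _ (hC a) (F r - F (r - 1))
  have hC0 : 0 ≤ C := hMnn _ _ (hC 0)
  -- limits
  have limF : Tendsto F atTop (𝓝 f) := by
    rw [Metric.tendsto_atTop]
    intro ε hε
    obtain ⟨R, hR⟩ := hVLM f ε hε
    exact ⟨R, fun r hr => by rw [dist_eq_norm]; exact hR r hr _ (hF r)⟩
  have limP : Tendsto P atTop (𝓝 (x + y)) := by
    rw [tendsto_iff_norm_sub_tendsto_zero]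
    have h1 : Tendsto (fun r => (1 + 1 : ℝ) * ‖F r - f‖) atTop (𝓝 0) := by
      have := (tendsto_iff_norm_sub_tendsto_zero.1 limF).const_mul (1 + 1 : ℝ)
      rwa [mul_zero] at this
    exact squeeze_zero (fun r => norm_nonneg _) (fun r => hMbd _ _ hMs _ _ (act_sub (hP r) hxy)) h1
  have limD : Tendsto (fun r => C * ‖F r - F (r - 1)‖) atTop (𝓝 0) := by
    have h1 : Tendsto (fun r => F (r - 1)) atTop (𝓝 f) := limF.comp (tendsto_sub_atTop_nat 1)
    have h2 := ((limF.sub h1).norm).const_mul C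
    rwa [sub_self, norm_zero, mul_zero] at h2
  have hi1 : ∀ a : ℕ, a ≤ 2 ^ (a + 1) - 1 := fun a => by
    have := Nat.lt_two_pow_self (n := a + 1)
    omega
  have hi2 : ∀ a : ℕ, a ≤ 2 ^ a := fun a => Nat.lt_two_pow_self.le
  have limP' : Tendsto (fun a => Λ (P (slot n (2 ^ (a + 1) - 1)))) atTop (𝓝 (Λ (x + y))) :=
    (Λ.continuous.tendsto _).comp (limP.comp (slot_tendsto n _ hi1))
  have limQ : Tendsto (fun a => Q a (slot n (2 ^ a))) atTop (𝓝 0) := by
    rw [tendsto_zero_iff_norm_tendsto_zero]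
    exact squeeze_zero (fun a => norm_nonneg _) (fun a => hMbd _ _ (hC a) _ _ (hQ a _))
      (limD.comp (slot_tendsto n _ hi2))
  have limQ' : Tendsto (fun a => Λ (Q a (slot n (2 ^ a)))) atTop (𝓝 0) := by
    have := (Λ.continuous.tendsto _).comp limQ
    rwa [map_zero] at this
  -- values
  have vP : ∀ a, Nat.size n ≤ a → Λ (P (slot n (2 ^ (a + 1) - 1))) =
      ∑ i ∈ Finset.Ico (2 ^ Nat.size n) (2 ^ (a + 1)), ∑ z ∈ RS n i, g z := by
    intro a ha
    rw [← hSUP S hS g hR.1 n hn a ha _ rfl]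
    have h1 := act_comp (hF (slot n (2 ^ (a + 1) - 1))) (hP (slot n (2 ^ (a + 1) - 1)))
    refine fun_poly Λ h1 _ fun z hz => ?_
    rw [hVVS.2.1 _ z hz]
    simp
  have vQ : ∀ a, Nat.size n ≤ a → Λ (Q a (slot n (2 ^ a))) = gS g n (2 ^ a) := by
    intro a ha
    rw [← hSUX S hS g hR.1 n hn a ha _ rfl]
    have hr1 : 1 ≤ slot n (2 ^ a) := by
      unfold slot
      have : 1 ≤ (2 ^ a) ^ 2 := Nat.one_le_pow _ _ (by positivity)
      omega
    have h0 : Act (fun z => (VV (slot n (2 ^ a)) z : ℂ) - VV (slot n (2 ^ a) - 1) z) f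
        (F (slot n (2 ^ a)) - F (slot n (2 ^ a) - 1)) := by
      intro z
      rw [coeff_sub, hF, hF]
      ring
    have h1 := act_comp h0 (hQ a (slot n (2 ^ a)))
    refine fun_poly Λ h1 _ fun z hz => ?_
    have h2 : (NN (slot n (2 ^ a) - 1 + 1) : ℤ) ≤ |z| := by
      have h3 : slot n (2 ^ a) - 1 + 1 = slot n (2 ^ a) := by omega
      rw [h3]
      have h4 := hNNA.2.1 (slot n (2 ^ a))
      have h5 : (NN (slot n (2 ^ a)) : ℤ) ≤ NN (slot n (2 ^ a) + 1) := by exact_mod_cast (by omega)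
      exact h5.trans hz
    rw [hVVS.2.1 _ z hz, hVVS.2.1 _ z h2]
    simp
  have main : ∀ a, Nat.size n ≤ a → -∑ b ∈ kids S n (a + 1), gA g (n + 2 ^ b) (2 ^ (b + 1)) =
      Λ (P (slot n (2 ^ (a + 1) - 1))) - gA g n (2 ^ Nat.size n) - Λ (Q a (slot n (2 ^ a))) := by
    intro a ha
    rw [vP a ha, vQ a ha, hTEL S hS g hR n hn a ha]
    ring
  rw [← tendsto_add_atTop_iff_nat 1]
  have hfin : Tendsto (fun a => Λ (P (slot n (2 ^ (a + 1) - 1))) - gA g n (2 ^ Nat.size n) -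
      Λ (Q a (slot n (2 ^ a)))) atTop (𝓝 (Λ x + Λ y - gA g n (2 ^ Nat.size n))) := by
    have := (limP'.sub_const (gA g n (2 ^ Nat.size n))).sub limQ'
    rwa [sub_zero, map_add] at this
  refine hfin.congr' ?_
  filter_upwards [eventually_ge_atTop (Nat.size n)] with a ha
  exact (main a ha).symm

theorem lek2 (hKSP : T_KSP) (hAPM : T_APM) (hMUL : T_MUL) (hLAB : T_LAB)
    (S : Set ℕ) (hS : IsTree S) (hB : ¬ Branch S) (Λ : L1 →L[ℂ] ℂ) (f : L1) (hK : Kil S Λ)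
    (hrel : Rels S (fun z => coeff f z * Λ (ex z))) : Λ f = 0 := by
  by_contra hne
  -- the multiples
  have hex : ∀ n a, ∃ x, Act (ind (inK n a)) f x := fun n a => by
    obtain ⟨x, hx, _⟩ := hMUL.2.2.2.2.2.2.2.1 _ _ (hAPM.2.1 n a) f
    exact ⟨x, hx⟩
  choose w hw using hex
  have hexh : ∀ n, ∃ x, Act (ind (inh n)) f x := fun n => by
    obtain ⟨x, hx, _⟩ := hMUL.2.2.2.2.2.2.2.1 _ _ (hAPM.2.2.1 n) f
    exact ⟨x, hx⟩
  choose xh hxh using hexh
  have hexg : ∀ n, ∃ x, Act (ind (ing n)) f x := fun n => by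
    obtain ⟨x, hx, _⟩ := hMUL.2.2.2.2.2.2.2.1 _ _ (hAPM.2.2.2.1 n) f
    exact ⟨x, hx⟩
  choose xg hxg using hexg
  set g : ℤ → ℂ := fun z => coeff f z * Λ (ex z) with hg
  let L : ℕ → ℂ := fun n => -gA g n (2 ^ Nat.size n) + Λ (w n (Nat.size n))
  -- the recursion
  have hrec : ∀ n ∈ S, Tendsto (fun a => ∑ b ∈ kids S n a, L (n + 2 ^ b)) atTop (𝓝 (L n)) := by
    intro n hn
    have h1 := nod2 fTEL fSUP fSUX fAPM fTRP fVLM fMUL fVVS Pool.Agent.H19.SC.NNA_proof S hS Λ f hrel n hn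
      (xh n) (xg n) (hxh n) (hxg n)
    have h2 := hKSP S hS Λ f hK n hn (xh n) (xg n) (w n (Nat.size n)) (hxh n) (hxg n)
      (hw n (Nat.size n)) (fun b => w (n + 2 ^ b) (b + 1)) (fun b => hw _ _)
    have h3 := h1.add h2
    have h4 : Λ (xh n) + Λ (xg n) - gA (fun z => coeff f z * Λ (ex z)) n (2 ^ Nat.size n) +
        (Λ (w n (Nat.size n)) - Λ (xh n) - Λ (xg n)) = L n := by
      simp only [L, g]
      ring
    rw [h4] at h3
    refine h3.congr fun a => ?_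
    rw [← Finset.sum_neg_distrib, ← Finset.sum_add_distrib]
    refine Finset.sum_congr rfl fun b hb => ?_
    have hb' : Nat.size n ≤ b := (mem_kids.1 hb).1.1
    simp only [L, size_add_pow hb', g]
  have hstep : ∀ n ∈ S, L n ≠ 0 → ∃ b, n < 2 ^ b ∧ n + 2 ^ b ∈ S ∧ L (n + 2 ^ b) ≠ 0 := by
    intro n hn hL
    by_contra hcon
    push Not at hcon
    apply hL
    refine tendsto_nhds_unique (hrec n hn) ?_
    refine tendsto_const_nhds.congr fun a => ?_
    refine (Finset.sum_eq_zero fun b hb => ?_).symm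
    exact hcon b (Nat.size_le.1 (mem_kids.1 hb).1.1) (mem_kids.1 hb).2
  have hL0 : L 0 ≠ 0 := by
    have h1 : gA g 0 (2 ^ Nat.size 0) = 0 := by
      have key : ∀ s : ℤ, ∑ z ∈ FA 0 1 s, g z = 0 := by
        intro s
        refine Finset.sum_eq_zero fun z hz => ?_
        obtain ⟨hr, e1, e2, e3⟩ := Pool.Agent.H27.SC.mem_FA.1 hz
        refine hrel.1 z ?_
        rw [hLAB.1 S 0 1 z hS.1 hr]
        unfold labAt
        rw [if_pos (by rw [e1, e2]), if_pos (by rw [e1, e3]), if_pos rfl]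
      simp only [Nat.size_zero, pow_zero, gA]
      rw [key, key, add_zero]
    have h2 : w 0 (Nat.size 0) = f := by
      apply ext_coeff
      intro z
      rw [hw 0 (Nat.size 0) z]
      have : inK 0 (Nat.size 0) z := by
        unfold inK
        rw [Nat.size_zero, pow_zero]
        exact one_dvd _
      unfold ind
      rw [if_pos this, one_mul]
    simp only [L]
    rw [h1, h2, neg_zero, zero_add]
    exact hne
  -- the branch
  choose! bb hb1 hb2 hb3 using hstep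
  let v : ℕ → ℕ := fun k => Nat.rec 0 (fun _ n => n + 2 ^ bb n) k
  have hvs : ∀ k, v (k + 1) = v k + 2 ^ bb (v k) := fun k => rfl
  have hv : ∀ k, v k ∈ S ∧ L (v k) ≠ 0 := by
    intro k
    induction k with
    | zero => exact ⟨hS.1, hL0⟩
    | succ k ih =>
      rw [hvs]
      exact ⟨hb2 _ ih.1 ih.2, hb3 _ ih.1 ih.2⟩
  exact hB ⟨v, rfl, fun k => (hv k).1, fun k => ⟨bb (v k), hb1 _ (hv k).1 (hv k).2, hvs k⟩⟩


/-- sums of odd functions over invariant finite sets vanish -/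
theorem sum_odd {S : Set ℕ} (hS : IsTree S) (C : Finset ℤ) (hC : ∀ w ∈ C, pis S w ∈ C)
    (g : ℤ → ℂ) (hg : ∀ z, g (pis S z) = -g z) : ∑ w ∈ C, g w = 0 := by
  have h1 : ∑ w ∈ C, g w = ∑ w ∈ C, g (pis S w) := by
    symm
    exact Finset.sum_nbij' (pis S) (pis S) hC hC (fun z _ => pis_pis hS z)
      (fun z _ => pis_pis hS z) (fun z _ => rfl)
  have h2 : ∑ w ∈ C, g (pis S w) = -∑ w ∈ C, g w := by
    rw [← Finset.sum_neg_distrib]
    exact Finset.sum_congr rfl fun z _ => hg z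
  have h3 : (2 : ℂ) * ∑ w ∈ C, g w = 0 := by linear_combination h1 + h2
  exact (mul_eq_zero.1 h3).resolve_left two_ne_zero

/-- a functional which kills the orbits is odd -/
theorem odd_of_kill {S : Set ℕ} (hS : IsTree S) (Λ : L1 →L[ℂ] ℂ)
    (hΛ : ∀ (C : Finset ℤ) (z : ℤ), (∀ w, w ∈ C ↔ orbit (pis S) (pis_pis hS) z w) → Λ (eS C) = 0)
    (z : ℤ) : Λ (ex (pis S z)) = -Λ (ex z) := by
  classical
  have h1 := hΛ {z, pis S z} z (fun w => by
    rw [Finset.mem_insert, Finset.mem_singleton]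
    exact Iff.rfl)
  by_cases h : z = pis S z
  · rw [← h, Finset.pair_eq_singleton] at h1
    rw [← h]
    unfold eS at h1
    rw [Finset.sum_singleton] at h1
    rw [h1, neg_zero]
  · unfold eS at h1
    rw [Finset.sum_pair h, map_add] at h1
    linear_combination h1

theorem kil_of_kill {S : Set ℕ} (hS : IsTree S) (Λ : L1 →L[ℂ] ℂ)
    (hodd : ∀ z, Λ (ex (pis S z)) = -Λ (ex z)) : Kil S Λ := by
  intro C z hC
  unfold eS
  rw [map_sum]
  refine sum_odd hS C (fun w hw => ?_) _ hodd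
  rw [hC] at hw ⊢
  rw [Pool.Agent.H41.SC.rel_iff] at hw ⊢
  rw [hw, lab_pis hS]

theorem rels_of_odd {S : Set ℕ} (hS : IsTree S) (g : ℤ → ℂ) (hg : ∀ z, g (pis S z) = -g z) :
    Rels S g := by
  classical
  obtain ⟨f1, f2, f3⟩ := fFIB S hS
  have key : ∀ (C : Finset ℤ) (L : Lab), (∀ w, lab S w = L ↔ w ∈ C) → ∑ w ∈ C, g w = 0 := by
    intro C L hC
    refine sum_odd hS C (fun w hw => ?_) g hg
    rw [← hC] at hw ⊢
    rw [lab_pis hS, hw]
  refine ⟨?_, ?_, ?_, ?_⟩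
  · intro z hz
    have h1 := hg z
    have h2 : pis S z = z := by
      unfold pis
      rw [hz]
      rfl
    rw [h2] at h1
    have h3 : (2 : ℂ) * g z = 0 := by linear_combination h1
    exact (mul_eq_zero.1 h3).resolve_left two_ne_zero
  · intro n i s hn hv hi _
    rw [← Finset.sum_union (fDSJ.1 n i s hv hi)]
    refine key _ (Lab.inn n i s) fun w => ?_
    rw [f1, Finset.mem_union]
    exact ⟨fun h => h.2.2.2, fun h => ⟨hn, hv, hi, h⟩⟩
  · intro n i hn hv hi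
    unfold gS
    rw [← Finset.sum_union (fDSJ.2.1 n i).2.1]
    refine key _ (Lab.lst n i) fun w => ?_
    rw [f2, Finset.mem_union]
    exact ⟨fun h => h.2.2, fun h => ⟨hn, hi, h⟩⟩
  · intro n i hn hv hi hnS
    unfold gD
    rw [← Finset.sum_union (fDSJ.2.1 n i).2.2]
    refine key _ (Lab.ldr n i) fun w => ?_
    rw [f3, Finset.mem_union]
    exact ⟨fun h => h.2.2.2.2, fun h => ⟨hn, hv, hi, hnS, h⟩⟩

/-- the idempotents of the classes -/
def idemr (r : Setoid ℤ) : Set L1 :=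
  {x | ∃ (C : Finset ℤ) (z : ℤ), (∀ w, w ∈ C ↔ r z w) ∧ x = eS C}

theorem span_idemr (r : Setoid ℤ) {p : L1} (hp : p ∈ Submodule.span ℂ (idemr r)) :
    ∃ c : ℤ →₀ ℂ, (∀ m n, r m n → c m = c n) ∧ p = Finsupp.linearCombination ℂ ex c := by
  classical
  induction hp using Submodule.span_induction with
  | mem x hx =>
    obtain ⟨C, z, hC, rfl⟩ := hx
    refine ⟨∑ k ∈ C, Finsupp.single k 1, fun m n hmn => ?_, ?_⟩
    · have h1 : m ∈ C ↔ n ∈ C := by
        rw [hC, hC]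
        exact ⟨fun h => r.trans h hmn, fun h => r.trans h (r.symm hmn)⟩
      simp only [Finsupp.finsetSum_apply, Finsupp.single_apply, Finset.sum_ite_eq', h1]
    · rw [map_sum, eS]
      refine Finset.sum_congr rfl fun k _ => ?_
      rw [Finsupp.linearCombination_single, one_smul]
  | zero => exact ⟨0, fun _ _ _ => rfl, by rw [map_zero]⟩
  | add x y _ _ hx hy =>
    obtain ⟨c, hc, rfl⟩ := hx
    obtain ⟨d, hd, rfl⟩ := hy
    exact ⟨c + d, fun m n h => by rw [Finsupp.add_apply, Finsupp.add_apply, hc m n h, hd m n h],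
      by rw [map_add]⟩
  | smul a x _ hx =>
    obtain ⟨c, hc, rfl⟩ := hx
    exact ⟨a • c, fun m n h => by rw [Finsupp.smul_apply, Finsupp.smul_apply, hc m n h],
      by rw [map_smul]⟩

theorem hba_gen (r : Setoid ℤ)
    (H : ∀ (Λ : L1 →L[ℂ] ℂ) (f : L1), (∀ (C : Finset ℤ) (z : ℤ), (∀ w, w ∈ C ↔ r z w) →
      Λ (eS C) = 0) → f ∈ Amax r → Λ f = 0) : HasSynthesis r := by
  refine synthesis_of_approx _ ?_
  intro f hf _ ε hε
  have hcl : f ∈ closure ((Submodule.span ℂ (idemr r) : Submodule ℂ L1) : Set L1) := by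
    by_contra hnot
    obtain ⟨Λ, h1, h2⟩ := Pool.Agent.H4.SC.exists_functional _ f hnot
    refine h2 (H Λ f ?_ hf)
    intro C z hC
    exact h1 _ (Submodule.subset_span ⟨C, z, hC, rfl⟩)
  obtain ⟨p, hp, hfp⟩ := Metric.mem_closure_iff.1 hcl ε hε
  obtain ⟨c, hc, rfl⟩ := span_idemr r hp
  refine ⟨c, hc, ?_⟩
  rw [dist_eq_norm] at hfp
  exact hfp

/-- **well founded half** -/
theorem pos2 {S : Set ℕ} (hS : IsTree S) (hB : ¬ Branch S) :
    HasSynthesis (orbit (pis S) (pis_pis hS)) := by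
  refine hba_gen _ fun Λ f hΛ hf => ?_
  have hodd := odd_of_kill hS Λ hΛ
  have hfc : ∀ z, coeff f (pis S z) = coeff f z := fun z => (hf z (pis S z) (Or.inr rfl)).symm
  refine lek2 fKSP fAPM fMUL fLAB S hS hB Λ f (kil_of_kill hS Λ hodd) ?_
  refine rels_of_odd hS _ fun z => ?_
  change coeff f (pis S z) * Λ (ex (pis S z)) = -(coeff f z * Λ (ex z))
  rw [hfc, hodd]
  ring

end Pool.Agent.H93.SY
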