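import Mathlib

/-!
Balanced choice: one element in every block such that all the sums of finitely many bounded
functions are close to their averages.
-/

set_option autoImplicit false

namespace Pool.Agent.H93.SY

open Finset

/-- deviation of the value at `z` from the average over `B` -/
noncomputable def dev (B : Finset ℤ) (φ : ℤ → ℝ) (z : ℤ) : ℝ := φ z - (∑ y ∈ B, φ y) / B.card

theorem sum_dev (B : Finset ℤ) (hB : B.Nonempty) (φ : ℤ → ℝ) : ∑ z ∈ B, dev B φ z = 0 := by
  unfold dev
  rw [Finset.sum_sub_distrib, Finset.sum_const, nsmul_eq_mul]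
  have : (B.card : ℝ) ≠ 0 := by
    have := hB.card_pos
    positivity
  rw [mul_div_cancel₀ _ this, sub_self]

theorem abs_dev_le (B : Finset ℤ) (φ : ℤ → ℝ) (hφ : ∀ z, |φ z| ≤ 1) (z : ℤ) :
    |dev B φ z| ≤ 2 := by
  unfold dev
  have h1 : |(∑ y ∈ B, φ y) / B.card| ≤ 1 := by
    rw [abs_div, Nat.abs_cast]
    apply div_le_one_of_le₀ _ (Nat.cast_nonneg _)
    refine (Finset.abs_sum_le_sum_abs _ _).trans ?_
    refine (Finset.sum_le_sum fun y _ => hφ y).trans ?_
    simp
  refine (abs_sub _ _).trans ?_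
  have := hφ z
  linarith

/-- the average of the exponentials -/
theorem sum_exp_dev_le (B : Finset ℤ) (hB : B.Nonempty) (φ : ℤ → ℝ) (hφ : ∀ z, |φ z| ≤ 1) (l : ℝ)
    (hl : |l| ≤ 1 / 2) :
    ∑ z ∈ B, Real.exp (l * dev B φ z) ≤ B.card * Real.exp (4 * l ^ 2) := by
  have h1 : ∀ z ∈ B, Real.exp (l * dev B φ z) ≤ 1 + 4 * l ^ 2 + l * dev B φ z := by
    intro z _
    have h2 := abs_dev_le B φ hφ z
    have h3 : |l * dev B φ z| ≤ 1 := by
      rw [abs_mul]
      calc |l| * |dev B φ z| ≤ 1 / 2 * 2 := by
            apply mul_le_mul hl h2 (abs_nonneg _) (by norm_num)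
        _ = 1 := by norm_num
    have h4 := Real.abs_exp_sub_one_sub_id_le h3
    have h5 := (abs_le.1 h4).2
    have h6 : (l * dev B φ z) ^ 2 ≤ 4 * l ^ 2 := by
      rw [mul_pow]
      have : dev B φ z ^ 2 ≤ 4 := by
        rw [← sq_abs]
        nlinarith [abs_nonneg (dev B φ z)]
      nlinarith [sq_nonneg l]
    linarith
  refine (Finset.sum_le_sum h1).trans ?_
  rw [Finset.sum_add_distrib, Finset.sum_const, nsmul_eq_mul, ← Finset.mul_sum, sum_dev B hB,
    mul_zero, add_zero]
  apply mul_le_mul_of_nonneg_left _ (Nat.cast_nonneg _)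
  have := Real.add_one_le_exp (4 * l ^ 2)
  linarith

/-- balanced choice, potential form -/
theorem choice_pot {ι : Type} [Fintype ι] (φ : ι → ℤ → ℝ) (hφ : ∀ k z, |φ k z| ≤ 1)
    (B : ℕ → Finset ℤ) (l : ℝ) (hl : |l| ≤ 1 / 2) (e : ℕ) (hB : ∀ j < e, (B j).Nonempty) :
    ∃ t : ℕ → ℤ, (∀ j < e, t j ∈ B j) ∧
      ∑ k : ι, (Real.exp (l * ∑ j ∈ range e, dev (B j) (φ k) (t j)) +
        Real.exp (-l * ∑ j ∈ range e, dev (B j) (φ k) (t j))) ≤
        2 * Fintype.card ι * Real.exp (4 * l ^ 2) ^ e := by
  classical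
  induction e with
  | zero =>
    refine ⟨fun _ => 0, fun j hj => absurd hj (by omega), ?_⟩
    simp only [range_zero, sum_empty, mul_zero, Real.exp_zero, pow_zero, mul_one, sum_const,
      card_univ, nsmul_eq_mul]
    linarith
  | succ e ih =>
    obtain ⟨t, ht, hP⟩ := ih fun j hj => hB j (by omega)
    have hne := hB e (by omega)
    set X : ι → ℝ := fun k => ∑ j ∈ range e, dev (B j) (φ k) (t j) with hX
    -- the sum of the new potentials over the block
    have hsum : ∑ z ∈ B e, ∑ k : ι, (Real.exp (l * (X k + dev (B e) (φ k) z)) +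
        Real.exp (-l * (X k + dev (B e) (φ k) z))) ≤
        ∑ z ∈ B e, 2 * Fintype.card ι * Real.exp (4 * l ^ 2) ^ (e + 1) := by
      rw [Finset.sum_comm, Finset.sum_const, nsmul_eq_mul]
      have h1 : ∀ k : ι, ∑ z ∈ B e, (Real.exp (l * (X k + dev (B e) (φ k) z)) +
          Real.exp (-l * (X k + dev (B e) (φ k) z))) ≤
          (Real.exp (l * X k) + Real.exp (-l * X k)) *
            ((B e).card * Real.exp (4 * l ^ 2)) := by
        intro k
        rw [Finset.sum_add_distrib, add_mul]
        apply add_le_add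
        · have : ∀ z ∈ B e, Real.exp (l * (X k + dev (B e) (φ k) z)) =
              Real.exp (l * X k) * Real.exp (l * dev (B e) (φ k) z) := by
            intro z _
            rw [← Real.exp_add]
            ring_nf
          rw [Finset.sum_congr rfl this, ← Finset.mul_sum]
          exact mul_le_mul_of_nonneg_left (sum_exp_dev_le _ hne _ (hφ k) l hl) (Real.exp_pos _).le
        · have : ∀ z ∈ B e, Real.exp (-l * (X k + dev (B e) (φ k) z)) =
              Real.exp (-l * X k) * Real.exp (-l * dev (B e) (φ k) z) := by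
            intro z _
            rw [← Real.exp_add]
            ring_nf
          rw [Finset.sum_congr rfl this, ← Finset.mul_sum]
          have h2 := sum_exp_dev_le _ hne _ (hφ k) (-l) (by rwa [abs_neg])
          rw [neg_sq] at h2
          exact mul_le_mul_of_nonneg_left h2 (Real.exp_pos _).le
      refine (Finset.sum_le_sum fun k _ => h1 k).trans ?_
      rw [← Finset.sum_mul, pow_succ]
      have h3 : (∑ k : ι, (Real.exp (l * X k) + Real.exp (-l * X k))) *
          ((B e).card * Real.exp (4 * l ^ 2)) ≤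
          (2 * Fintype.card ι * Real.exp (4 * l ^ 2) ^ e) *
          ((B e).card * Real.exp (4 * l ^ 2)) := by
        apply mul_le_mul_of_nonneg_right hP
        positivity
      refine h3.trans (le_of_eq ?_)
      ring
    obtain ⟨z, hz, hz2⟩ := Finset.exists_le_of_sum_le hne hsum
    refine ⟨fun j => if j = e then z else t j, ?_, ?_⟩
    · intro j hj
      by_cases h : j = e
      · simp only [h, if_true]
        exact hz
      · simp only [h, if_false]
        exact ht j (by omega)
    · have h4 : ∀ k : ι, ∑ j ∈ range (e + 1), dev (B j) (φ k) (if j = e then z else t j) =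
          X k + dev (B e) (φ k) z := by
        intro k
        rw [Finset.sum_range_succ, if_pos rfl, hX]
        congr 1
        apply Finset.sum_congr rfl
        intro j hj
        rw [if_neg (by rw [Finset.mem_range] at hj; omega)]
      simp_rw [h4]
      exact hz2

/-- balanced choice -/
theorem choice_bal {ι : Type} [Fintype ι] (φ : ι → ℤ → ℝ) (hφ : ∀ k z, |φ k z| ≤ 1)
    (B : ℕ → Finset ℤ) (l : ℝ) (hl0 : 0 < l) (hl : l ≤ 1 / 2) (e : ℕ)
    (hB : ∀ j < e, (B j).Nonempty) :
    ∃ t : ℕ → ℤ, (∀ j < e, t j ∈ B j) ∧ ∀ k,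
      |∑ j ∈ range e, dev (B j) (φ k) (t j)| ≤
        Real.log (2 * Fintype.card ι) / l + 4 * l * e := by
  obtain ⟨t, ht, hP⟩ := choice_pot φ hφ B l (by rwa [abs_of_pos hl0]) e hB
  refine ⟨t, ht, fun k => ?_⟩
  set X : ι → ℝ := fun k => ∑ j ∈ range e, dev (B j) (φ k) (t j) with hX
  have h1 : Real.exp (l * X k) + Real.exp (-l * X k) ≤
      2 * Fintype.card ι * Real.exp (4 * l ^ 2) ^ e := by
    refine le_trans ?_ hP
    exact Finset.single_le_sum (f := fun k => Real.exp (l * X k) + Real.exp (-l * X k))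
      (fun i _ => by positivity) (Finset.mem_univ k)
  have hcard : 0 < Fintype.card ι := Fintype.card_pos_iff.2 ⟨k⟩
  have h2 : Real.exp (l * |X k|) ≤ 2 * Fintype.card ι * Real.exp (4 * l ^ 2) ^ e := by
    rcases abs_cases (X k) with ⟨h, _⟩ | ⟨h, _⟩
    · rw [h]
      linarith [Real.exp_pos (-l * X k)]
    · rw [h]
      have : l * -X k = -l * X k := by ring
      rw [this]
      linarith [Real.exp_pos (l * X k)]
  have h3 := Real.log_le_log (Real.exp_pos _) h2
  rw [Real.log_exp, Real.log_mul (by positivity) (by positivity), ← Real.exp_nat_mul,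
    Real.log_exp] at h3
  change |X k| ≤ _
  have h4 : |X k| = (l * |X k|) / l := by field_simp
  rw [h4]
  calc (l * |X k|) / l ≤ (Real.log (2 * Fintype.card ι) + (e : ℝ) * (4 * l ^ 2)) / l :=
        div_le_div_of_nonneg_right h3 hl0.le
    _ = Real.log (2 * Fintype.card ι) / l + 4 * l * e := by
        field_simp

end Pool.Agent.H93.SY
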