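import Pool.Agent.H93.SY.SEL
import Pool.Agent.H85.SC.Targets
import Pool.Agent.H19.SC.NNA
import Pool.Agent.H18.SC.CNB

/-!
Numerical estimates: the target of every edge contains a well distributed copy of its source.
-/

set_option autoImplicit false

namespace Pool.Agent.H93.SY

open Finset Pool.Agent.H85.SC

theorem PP_lower (j : ℕ) : 2 ^ (3 * j + 9) ≤ PP j := by
  have h0 := (pr_gt j 0).le
  have h1 := (pr_gt j 1).le
  have h2 := (pr_gt j 2).le
  unfold PP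
  have e : 2 ^ (3 * j + 9) = 2 ^ (j + 2 + 0) * 2 ^ (j + 2 + 1) * 2 ^ (j + 2 + 2) := by
    rw [← pow_add, ← pow_add]
    congr 1
    ring
  rw [e]
  exact Nat.mul_le_mul (Nat.mul_le_mul h0 h1) h2

theorem PP_upper (j : ℕ) : PP j ≤ 2 ^ (3 * j + 12) := by
  have h0 := pr_le j 0
  have h1 := pr_le j 1
  have h2 := pr_le j 2
  unfold PP
  have e : 2 ^ (3 * j + 12) = 2 ^ (j + 3 + 0) * 2 ^ (j + 3 + 1) * 2 ^ (j + 3 + 2) := by
    rw [← pow_add, ← pow_add]
    congr 1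
    ring
  rw [e]
  exact Nat.mul_le_mul (Nat.mul_le_mul h0 h1) h2

theorem NN_succ (r : ℕ) : NN (r + 1) = NN r * (16 * PP (r + 1) ^ 2) := by
  unfold NN QQ
  rw [Finset.prod_range_succ _ (r + 1)]
  have : 4 ^ (r + 1 + 2) = 4 ^ (r + 2) * 4 := by rw [← pow_succ]
  rw [this]
  ring

theorem NN_lower (r : ℕ) : 2 ^ (3 * r ^ 2 + 25 * r + 26) ≤ NN r := by
  induction r with
  | zero =>
    have h := PP_lower 0
    unfold NN QQ
    rw [Finset.prod_range_one]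
    have e : 2 ^ (3 * 0 ^ 2 + 25 * 0 + 26) = (4 ^ (0 + 2) * 2 ^ (3 * 0 + 9)) ^ 2 := by norm_num
    rw [e]
    exact Nat.pow_le_pow_left (Nat.mul_le_mul_left _ h) 2
  | succ r ih =>
    rw [NN_succ]
    have h := PP_lower (r + 1)
    have e : 2 ^ (3 * (r + 1) ^ 2 + 25 * (r + 1) + 26) =
        2 ^ (3 * r ^ 2 + 25 * r + 26) * (16 * (2 ^ (3 * (r + 1) + 9)) ^ 2) := by
      have h16 : (16 : ℕ) = 2 ^ 4 := by norm_num
      rw [h16, ← pow_mul, ← pow_add, ← pow_add]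
      congr 1
      ring
    rw [e]
    exact Nat.mul_le_mul ih (Nat.mul_le_mul_left _ (Nat.pow_le_pow_left h 2))

theorem NN_upper (r : ℕ) : NN r ≤ 2 ^ (3 * r ^ 2 + 31 * r + 32) := by
  induction r with
  | zero =>
    have h := PP_upper 0
    unfold NN QQ
    rw [Finset.prod_range_one]
    have e : 2 ^ (3 * 0 ^ 2 + 31 * 0 + 32) = (4 ^ (0 + 2) * 2 ^ (3 * 0 + 12)) ^ 2 := by norm_num
    rw [e]
    exact Nat.pow_le_pow_left (Nat.mul_le_mul_left _ h) 2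
  | succ r ih =>
    rw [NN_succ]
    have h := PP_upper (r + 1)
    have e : 2 ^ (3 * (r + 1) ^ 2 + 31 * (r + 1) + 32) =
        2 ^ (3 * r ^ 2 + 31 * r + 32) * (16 * (2 ^ (3 * (r + 1) + 12)) ^ 2) := by
      have h16 : (16 : ℕ) = 2 ^ 4 := by norm_num
      rw [h16, ← pow_mul, ← pow_add, ← pow_add]
      congr 1
      ring
    rw [e]
    exact Nat.mul_le_mul ih (Nat.mul_le_mul_left _ (Nat.pow_le_pow_left h 2))

theorem NN_step' (r' r : ℕ) (h : r' < r) : NN r' * 2 ^ (6 * r + 22) ≤ NN r := by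
  obtain ⟨k, rfl⟩ : ∃ k, r = k + 1 := ⟨r - 1, by omega⟩
  have hmono : NN r' ≤ NN k := by
    rcases Nat.lt_or_ge r' k with h1 | h1
    · have := Pool.Agent.H19.SC.NNA_proof.2.2.1 r' k h1
      omega
    · have : r' = k := by omega
      rw [this]
  rw [NN_succ]
  refine Nat.mul_le_mul hmono ?_
  have h2 := PP_lower (k + 1)
  have e : 2 ^ (6 * (k + 1) + 22) = 16 * (2 ^ (3 * (k + 1) + 9)) ^ 2 := by
    have h16 : (16 : ℕ) = 2 ^ 4 := by norm_num
    rw [h16, ← pow_mul, ← pow_add]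
    congr 1
    ring
  rw [e]
  exact Nat.mul_le_mul_left _ (Nat.pow_le_pow_left h2 2)

theorem cnt_le (n i : ℕ) : 2 * cnt n i ≤ NN (slot n i) := by
  unfold cnt
  set P := lvl n i
  set D := 4 ^ (Nat.size n + 1) * PP P with hD
  have hx : 2 * ((pr P 0 - 1) / 2 * ((pr P 1 - 1) / 2) * ((pr P 2 - 1) / 2)) ≤ D := by
    have h0 : 2 * ((pr P 0 - 1) / 2) ≤ pr P 0 := by omega
    have h1 : (pr P 1 - 1) / 2 ≤ pr P 1 := by omega
    have h2 : (pr P 2 - 1) / 2 ≤ pr P 2 := by omega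
    have h3 : 1 ≤ 4 ^ (Nat.size n + 1) := Nat.one_le_pow _ _ (by norm_num)
    calc 2 * ((pr P 0 - 1) / 2 * ((pr P 1 - 1) / 2) * ((pr P 2 - 1) / 2)) =
        2 * ((pr P 0 - 1) / 2) * ((pr P 1 - 1) / 2) * ((pr P 2 - 1) / 2) := by ring
      _ ≤ pr P 0 * pr P 1 * pr P 2 := Nat.mul_le_mul (Nat.mul_le_mul h0 h1) h2
      _ = PP P := rfl
      _ ≤ D := by rw [hD]; nlinarith [Nat.zero_le (PP P)]
  calc 2 * (NN (slot n i) / D * ((pr P 0 - 1) / 2 * ((pr P 1 - 1) / 2) * ((pr P 2 - 1) / 2))) =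
      NN (slot n i) / D * (2 * ((pr P 0 - 1) / 2 * ((pr P 1 - 1) / 2) * ((pr P 2 - 1) / 2))) := by
        ring
    _ ≤ NN (slot n i) / D * D := Nat.mul_le_mul_left _ hx
    _ ≤ NN (slot n i) := Nat.div_mul_le_self _ _

theorem size_le_self (n : ℕ) : Nat.size n ≤ n := Nat.size_le.2 Nat.lt_two_pow_self

/-- lower bound for the number of points -/
theorem cnt_ge (n i : ℕ) (hv : Valid n i) :
    NN (slot n i) ≤ cnt n i * 2 ^ (2 * slot n i + 7) := by
  have hB := Pool.Agent.H18.SC.cnb Pool.Agent.H19.SC.DIV_proof n i hv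
  obtain ⟨h0, h1, h2⟩ := hB
  have hc : (0 : ℝ) < cnt n i := by exact_mod_cast h0
  have h3 : (NN (slot n i) : ℝ) ≤ cnt n i * (27 * 4 ^ (Nat.size n + 1)) := by
    rw [← h1] at h2
    rw [div_le_iff₀ hc] at h2
    linarith
  have h4 : 27 * 4 ^ (Nat.size n + 1) ≤ 2 ^ (2 * slot n i + 7) := by
    have h5 : Nat.size n ≤ slot n i := (size_le_self n).trans (by unfold slot; omega)
    have h6 : 4 ^ (Nat.size n + 1) = 2 ^ (2 * (Nat.size n + 1)) := by
      rw [pow_mul]; norm_num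
    have h7 : 2 ^ (2 * (Nat.size n + 1)) ≤ 2 ^ (2 * (slot n i + 1)) :=
      Nat.pow_le_pow_right (by norm_num) (by omega)
    have h8 : 2 ^ (2 * slot n i + 7) = 32 * 2 ^ (2 * (slot n i + 1)) := by
      have : (32 : ℕ) = 2 ^ 5 := by norm_num
      rw [this, ← pow_add]; congr 1; ring
    rw [h6, h8]
    omega
  have h5 : (NN (slot n i) : ℝ) ≤ ((cnt n i * 2 ^ (2 * slot n i + 7) : ℕ) : ℝ) := by
    refine h3.trans ?_
    push_cast
    apply mul_le_mul_of_nonneg_left _ hc.le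
    exact_mod_cast h4
  exact_mod_cast h5

theorem poly_le (x : ℕ) : 75 * x ^ 2 + 165 * x + 41 ≤ 2 ^ (3 * x ^ 2 + 3 * x + 11) := by
  have h1 : 3 * x ^ 2 + 3 * x + 1 ≤ 2 ^ (3 * x ^ 2 + 3 * x) := Nat.lt_two_pow_self
  have h2 : 2 ^ (3 * x ^ 2 + 3 * x + 11) = 2 ^ (3 * x ^ 2 + 3 * x) * 2048 := by
    rw [pow_add]; norm_num
  rw [h2]
  nlinarith

/-- the estimate for one edge -/
theorem est (n i n' i' : ℕ) (hv : Valid n i) (hv' : Valid n' i') (h1 : slot n' i' < slot n i)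
    (h5 : slot n i ≤ 5 * slot n' i') (e : ℕ) (he : cnt n' i' ≤ e) (he2 : e ≤ 2 * cnt n' i')
    (A : Finset ℤ) (hA : ∀ z ∈ A, 0 ≤ z ∧ z < 2 * NN (slot n i)) (hc : A.card = cnt n i) :
    ∃ T ⊆ A, T.card = e ∧ ∀ w : ℂ, ‖w‖ = 1 →
      ‖((2 : ℂ) ^ lvl n i / cnt n i) * ∑ z ∈ A, w ^ z - ((2 : ℂ) ^ lvl n i / e) * ∑ z ∈ T, w ^ z‖ ≤
        (1 / 2) ^ slot n i := by
  set r := slot n i with hr
  set x := slot n' i' with hx
  set m := lvl n i with hm
  have hx1 : 1 ≤ x := (Pool.Agent.H19.SC.SLT_proof.2.2 n' i' hv').1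
  have hmr : m ≤ r := by
    rw [hm, hr]
    unfold lvl slot
    have := hv.1
    nlinarith [Nat.sub_le i (2 ^ lg i)]
  have hB := (Pool.Agent.H18.SC.cnb Pool.Agent.H19.SC.DIV_proof n i hv).1
  have hB' := (Pool.Agent.H18.SC.cnb Pool.Agent.H19.SC.DIV_proof n' i' hv').1
  have he1 : 1 ≤ e := by omega
  -- (E1)
  have hE1 : e * 2 ^ (2 * r + 3) ≤ cnt n i := by
    have h2 : e ≤ NN x := he2.trans (cnt_le n' i')
    have h3 := NN_step' x r h1
    have h4 := cnt_ge n i hv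
    rw [← hr] at h4
    have h6 : NN x * 2 ^ (6 * r + 22) ≤ cnt n i * 2 ^ (2 * r + 7) := h3.trans h4
    have h7 : NN x * 2 ^ (6 * r + 22) = NN x * 2 ^ (4 * r + 15) * 2 ^ (2 * r + 7) := by
      rw [mul_assoc, ← pow_add]; congr 2; ring
    rw [h7] at h6
    have h8 : NN x * 2 ^ (4 * r + 15) ≤ cnt n i := Nat.le_of_mul_le_mul_right h6 (by positivity)
    refine le_trans ?_ h8
    exact Nat.mul_le_mul h2 (Nat.pow_le_pow_right (by norm_num) (by omega))
  have hec : e ≤ A.card := by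
    rw [hc]
    refine le_trans ?_ hE1
    exact Nat.le_mul_of_pos_right _ (by positivity)
  -- parameters
  set l : ℝ := (1 / 2) ^ (m + r + 5) with hl
  have hl0 : 0 < l := by positivity
  have hl1 : l ≤ 1 / 2 := by
    rw [hl]
    calc ((1 : ℝ) / 2) ^ (m + r + 5) ≤ (1 / 2) ^ 1 :=
          pow_le_pow_of_le_one (by norm_num) (by norm_num) (by omega)
      _ = 1 / 2 := pow_one _
  set M : ℕ := NN r * 2 ^ (m + r + 7) with hM
  have hNpos : 0 < NN r := Pool.Agent.H19.SC.NNA_proof.1 r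
  have hM0 : 0 < M := by positivity
  obtain ⟨T, hT, hTc, hTw⟩ := sel A (NN r) hA e he1 hec l hl0 hl1 M hM0
  refine ⟨T, hT, hTc, fun w hw => ?_⟩
  have h2 := hTw w hw
  rw [hc] at h2
  have hc0 : (0 : ℝ) < cnt n i := by exact_mod_cast hB
  have he0 : (0 : ℝ) < e := by exact_mod_cast he1
  have e1 : ((2 : ℂ) ^ m / cnt n i) * ∑ z ∈ A, w ^ z - ((2 : ℂ) ^ m / e) * ∑ z ∈ T, w ^ z =
      (2 : ℂ) ^ m * ((1 / (cnt n i : ℂ)) * ∑ z ∈ A, w ^ z - (1 / (e : ℂ)) * ∑ z ∈ T, w ^ z) := by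
    ring
  rw [e1, norm_mul, norm_pow, Complex.norm_two]
  -- the four terms
  have t1 : 2 * (e : ℝ) / cnt n i ≤ (1 / 2) ^ (m + r + 2) := by
    rw [div_le_iff₀ hc0]
    have h3 : (e : ℝ) * 2 ^ (2 * r + 3) ≤ cnt n i := by exact_mod_cast hE1
    have h4 : ((1 : ℝ) / 2) ^ (m + r + 2) * (e * 2 ^ (2 * r + 3)) ≤
        (1 / 2) ^ (m + r + 2) * cnt n i := mul_le_mul_of_nonneg_left h3 (by positivity)
    refine le_trans ?_ h4
    have h5 : ((1 : ℝ) / 2) ^ (m + r + 2) * (e * 2 ^ (2 * r + 3)) =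
        e * (2 * 2 ^ (r - m)) := by
      obtain ⟨d, hd⟩ : ∃ d, r = m + d := ⟨r - m, by omega⟩
      rw [hd, Nat.add_sub_cancel_left]
      have : (2 : ℝ) ^ (2 * (m + d) + 3) = 2 ^ (m + (m + d) + 2) * (2 * 2 ^ d) := by
        rw [← pow_succ', ← pow_add]; congr 1; ring
      rw [this]
      have h6 : ((1 : ℝ) / 2) ^ (m + (m + d) + 2) * 2 ^ (m + (m + d) + 2) = 1 := by
        rw [← mul_pow]; norm_num
      linear_combination (e * (2 * 2 ^ d)) * h6
    rw [h5]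
    have h6 : (1 : ℝ) ≤ 2 ^ (r - m) := one_le_pow₀ (by norm_num)
    nlinarith
  have t3 : 8 * l = (1 / 2) ^ (m + r + 2) := by
    rw [hl, show m + r + 5 = m + r + 2 + 3 by ring, pow_add]
    ring
  have t4 : 8 * Real.pi * (NN r : ℝ) / M ≤ (1 / 2) ^ (m + r + 2) := by
    have hM' : (M : ℝ) = NN r * 2 ^ (m + r + 7) := by rw [hM]; push_cast; ring
    rw [hM']
    have hN0 : (0 : ℝ) < NN r := by exact_mod_cast hNpos
    rw [div_le_iff₀ (by positivity)]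
    have h6 : ((1 : ℝ) / 2) ^ (m + r + 2) * (NN r * 2 ^ (m + r + 7)) = 32 * NN r := by
      have : (2 : ℝ) ^ (m + r + 7) = 2 ^ (m + r + 2) * 32 := by
        rw [show m + r + 7 = m + r + 2 + 5 by ring, pow_add]; norm_num
      rw [this]
      have h7 : ((1 : ℝ) / 2) ^ (m + r + 2) * 2 ^ (m + r + 2) = 1 := by
        rw [← mul_pow]; norm_num
      linear_combination (NN r * 32 : ℝ) * h7
    rw [h6]
    have := Real.pi_lt_four
    nlinarith
  have t2 : 2 * (Real.log (4 * M) / (l * e)) ≤ (1 / 2) ^ (m + r + 2) := by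
    -- the logarithm
    have hlog : Real.log (4 * M) ≤ 75 * (x : ℝ) ^ 2 + 165 * x + 41 := by
      have h6 : (4 * M : ℝ) ≤ 2 ^ (3 * r ^ 2 + 33 * r + 41) := by
        have h7 := NN_upper r
        have h8 : 4 * M ≤ 2 ^ (3 * r ^ 2 + 33 * r + 41) := by
          calc 4 * M = 4 * (NN r * 2 ^ (m + r + 7)) := by rw [hM]
            _ ≤ 4 * (2 ^ (3 * r ^ 2 + 31 * r + 32) * 2 ^ (r + r + 7)) := by
                apply Nat.mul_le_mul_left
                exact Nat.mul_le_mul h7 (Nat.pow_le_pow_right (by norm_num) (by omega))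
            _ = 2 ^ (3 * r ^ 2 + 33 * r + 41) := by
                have : (4 : ℕ) = 2 ^ 2 := by norm_num
                rw [this, ← pow_add, ← pow_add]; congr 1; ring
        exact_mod_cast h8
      have h9 : Real.log (4 * M) ≤ Real.log (2 ^ (3 * r ^ 2 + 33 * r + 41)) :=
        Real.log_le_log (by positivity) h6
      rw [Real.log_pow] at h9
      have h10 : Real.log 2 ≤ 1 := by
        have := Real.log_two_lt_d9
        linarith
      have h11 : ((3 * r ^ 2 + 33 * r + 41 : ℕ) : ℝ) * Real.log 2 ≤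
          ((3 * r ^ 2 + 33 * r + 41 : ℕ) : ℝ) := by
        have h12 : (0 : ℝ) ≤ ((3 * r ^ 2 + 33 * r + 41 : ℕ) : ℝ) := Nat.cast_nonneg _
        nlinarith
      have h13 : 3 * r ^ 2 + 33 * r + 41 ≤ 75 * x ^ 2 + 165 * x + 41 := by nlinarith
      have h14 : ((3 * r ^ 2 + 33 * r + 41 : ℕ) : ℝ) ≤ ((75 * x ^ 2 + 165 * x + 41 : ℕ) : ℝ) := by
        exact_mod_cast h13
      push_cast at h9 h11 h14
      linarith
    have hE2 : (75 * x ^ 2 + 165 * x + 41) * 2 ^ (2 * m + 2 * r + 8) ≤ e := by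
      have h6 := cnt_ge n' i' hv'
      rw [← hx] at h6
      have h7 := NN_lower x
      have h8 : 2 ^ (3 * x ^ 2 + 23 * x + 19) ≤ cnt n' i' := by
        have h9 : 2 ^ (3 * x ^ 2 + 25 * x + 26) =
            2 ^ (3 * x ^ 2 + 23 * x + 19) * 2 ^ (2 * x + 7) := by
          rw [← pow_add]; congr 1; ring
        rw [h9] at h7
        exact Nat.le_of_mul_le_mul_right (h7.trans h6) (by positivity)
      refine le_trans ?_ (h8.trans he)
      calc (75 * x ^ 2 + 165 * x + 41) * 2 ^ (2 * m + 2 * r + 8) ≤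
          2 ^ (3 * x ^ 2 + 3 * x + 11) * 2 ^ (20 * x + 8) :=
            Nat.mul_le_mul (poly_le x) (Nat.pow_le_pow_right (by norm_num) (by omega))
        _ = 2 ^ (3 * x ^ 2 + 23 * x + 19) := by rw [← pow_add]; congr 1; ring
    have hE2' : (75 * (x : ℝ) ^ 2 + 165 * x + 41) * 2 ^ (2 * m + 2 * r + 8) ≤ e := by
      exact_mod_cast hE2
    rw [← mul_div_assoc, div_le_iff₀ (by positivity)]
    have h6 : ((1 : ℝ) / 2) ^ (m + r + 2) * (l * e) =
        ((1 : ℝ) / 2) ^ (2 * m + 2 * r + 7) * e := by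
      rw [hl, ← mul_assoc, ← pow_add]
      congr 2
      ring
    rw [h6]
    have h7 : ((1 : ℝ) / 2) ^ (2 * m + 2 * r + 7) *
        ((75 * (x : ℝ) ^ 2 + 165 * x + 41) * 2 ^ (2 * m + 2 * r + 8)) ≤
        ((1 : ℝ) / 2) ^ (2 * m + 2 * r + 7) * e := mul_le_mul_of_nonneg_left hE2' (by positivity)
    refine le_trans ?_ h7
    have h8 : ((1 : ℝ) / 2) ^ (2 * m + 2 * r + 7) *
        ((75 * (x : ℝ) ^ 2 + 165 * x + 41) * 2 ^ (2 * m + 2 * r + 8)) =
        2 * (75 * (x : ℝ) ^ 2 + 165 * x + 41) := by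
      have : (2 : ℝ) ^ (2 * m + 2 * r + 8) = 2 ^ (2 * m + 2 * r + 7) * 2 := by
        rw [← pow_succ]
      rw [this]
      have h9 : ((1 : ℝ) / 2) ^ (2 * m + 2 * r + 7) * 2 ^ (2 * m + 2 * r + 7) = 1 := by
        rw [← mul_pow]; norm_num
      linear_combination ((75 * (x : ℝ) ^ 2 + 165 * x + 41) * 2) * h9
    rw [h8]
    linarith
  have htot : 2 * (e : ℝ) / cnt n i + 2 * (Real.log (4 * M) / (l * e) + 4 * l) +
      8 * Real.pi * (NN r : ℝ) / M ≤ 4 * (1 / 2) ^ (m + r + 2) := by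
    linarith
  have h6 : (2 : ℝ) ^ m * (4 * (1 / 2) ^ (m + r + 2)) = (1 / 2) ^ r := by
    rw [show m + r + 2 = m + (r + 2) by ring, pow_add, pow_add]
    have h7 : (2 : ℝ) ^ m * (1 / 2) ^ m = 1 := by rw [← mul_pow]; norm_num
    linear_combination ((1 / 2 : ℝ) ^ r) * h7
  rw [← h6]
  exact mul_le_mul_of_nonneg_left (h2.trans htot) (by positivity)

end Pool.Agent.H93.SY
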