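import Pool.Agent.H93.SY.POS2
import Pool.Agent.H85.SC.Stmt

/-!
The complexity of the synthesis property for relations with classes of at most two elements.
-/

set_option autoImplicit false

open Filter Topology MeasureTheory

namespace Pool.Agent.H93.SY

open Pool.Agent.H85.SC Pool.Agent.H87.Synth Pool.Agent.H72

open Classical in
/-- the relation as a Boolean matrix -/
noncomputable def rb (S : Set ℕ) : ℤ → ℤ → Bool := fun m n => decide (n = m ∨ n = pis S m)

theorem rb_graph {S : Set ℕ} (hS : IsTree S) : IsGraph (rb S) (orbit (pis S) (pis_pis hS)) := by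
  intro m n
  unfold rb
  rw [decide_eq_true_iff]
  exact Iff.rfl

theorem orbit_encard {S : Set ℕ} (hS : IsTree S) (n : ℤ) :
    {m | orbit (pis S) (pis_pis hS) n m}.encard ≤ 2 := by
  have h1 : {m | orbit (pis S) (pis_pis hS) n m} ⊆ {n, pis S n} := by
    rintro m (h | h)
    · left; exact h
    · right; exact h
  refine (Set.encard_le_encard h1).trans ?_
  refine (Set.encard_insert_le _ _).trans ?_
  rw [Set.encard_singleton]
  norm_num

theorem mem_ST_local (T0 T : List ℕ → Bool) (k : ℕ)
    (h : ∀ j ∈ Finset.range ((dec k).length + 1), T ((dec k).take j) = T0 ((dec k).take j)) :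
    k ∈ Pool.Agent.H85.SC.ST T0 ↔ k ∈ Pool.Agent.H85.SC.ST T := by
  unfold Pool.Agent.H85.SC.ST
  simp only [Set.mem_ofPred_eq]
  constructor
  · rintro (h' | h')
    · exact Or.inl h'
    · exact Or.inr fun j hj => by
        rw [h j (Finset.mem_range.2 (by omega))]
        exact h' j hj
  · rintro (h' | h')
    · exact Or.inl h'
    · exact Or.inr fun j hj => by
        rw [← h j (Finset.mem_range.2 (by omega))]
        exact h' j hj

/-- the involution depends continuously on the tree -/
theorem continuous_pis : Continuous (fun T : List ℕ → Bool => pis (Pool.Agent.H85.SC.ST T)) := by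
  classical
  refine continuous_pi fun z => ?_
  obtain ⟨F, hF⟩ := Pool.Agent.H41.SC.lab_local Pool.Agent.H19.SC.UNQ_proof fLAB z
  rw [continuous_iff_continuousAt]
  intro T0
  have hU : {T : List ℕ → Bool | ∀ k ∈ F, ∀ j ∈ Finset.range ((dec k).length + 1),
      T ((dec k).take j) = T0 ((dec k).take j)} ∈ 𝓝 T0 := by
    have hopen : IsOpen {T : List ℕ → Bool | ∀ k ∈ F, ∀ j ∈ Finset.range ((dec k).length + 1),
        T ((dec k).take j) = T0 ((dec k).take j)} := by
      have e : {T : List ℕ → Bool | ∀ k ∈ F, ∀ j ∈ Finset.range ((dec k).length + 1),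
          T ((dec k).take j) = T0 ((dec k).take j)}
          = ⋂ k ∈ F, ⋂ j ∈ Finset.range ((dec k).length + 1),
            (fun T : List ℕ → Bool => T ((dec k).take j)) ⁻¹' {T0 ((dec k).take j)} := by
        ext T
        simp only [Set.mem_ofPred_eq, Set.mem_iInter, Set.mem_preimage, Set.mem_singleton_iff]
      rw [e]
      refine isOpen_biInter_finset fun k _ => isOpen_biInter_finset fun j _ => ?_
      exact (isOpen_discrete _).preimage (continuous_apply _)
    exact hopen.mem_nhds fun k _ j _ => rfl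
  refine continuousAt_const.congr (f := fun _ => pis (Pool.Agent.H85.SC.ST T0) z) ?_
  filter_upwards [hU] with T hT
  have h2 := hF (Pool.Agent.H85.SC.ST T0) (Pool.Agent.H85.SC.ST T)
    fun k hk => mem_ST_local T0 T k (hT k hk)
  unfold pis
  rw [h2]

theorem continuous_rb : Continuous (fun T : List ℕ → Bool => rb (Pool.Agent.H85.SC.ST T)) := by
  classical
  refine continuous_pi fun m => continuous_pi fun n => ?_
  have h1 : Continuous (fun p : ℤ => (decide (n = m ∨ n = p) : Bool)) := continuous_of_discreteTopology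
  have h2 : Continuous (fun T : List ℕ → Bool => pis (Pool.Agent.H85.SC.ST T) m) :=
    continuous_pi_iff.1 continuous_pis m
  have h3 := h1.comp h2
  refine h3.congr fun T => ?_
  simp only [Function.comp, rb]

theorem graph_unique {ρ : ℤ → ℤ → Bool} {r r' : Setoid ℤ} (h : IsGraph ρ r) (h' : IsGraph ρ r') :
    r = r' := by
  ext m n
  rw [← h m n, ← h' m n]

/-- ill founded trees are those without synthesis -/
theorem illF_iff (T : List ℕ → Bool) :
    T ∈ IllF ↔ ¬ HasSynthesis (orbit (pis (Pool.Agent.H85.SC.ST T))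
      (pis_pis (Pool.Agent.H35.SC.cod T).1)) := by
  constructor
  · intro h
    exact neg2 (Pool.Agent.H35.SC.cod T).1 ((Pool.Agent.H35.SC.cod T).2.2 h)
  · intro h
    by_contra hT
    exact h (pos2 (Pool.Agent.H35.SC.cod T).1 fun hB => hT ((Pool.Agent.H35.SC.cod T).2.1 hB))

/-- no Borel set separates -/
theorem not_meas (Q : Setoid ℤ → Prop)
    (hQ : ∀ (T : List ℕ → Bool), Q (orbit (pis (Pool.Agent.H85.SC.ST T))
      (pis_pis (Pool.Agent.H35.SC.cod T).1))) :
    ¬ MeasurableSet {ρ : ℤ → ℤ → Bool | ∃ r : Setoid ℤ, IsGraph ρ r ∧ Q r ∧ HasSynthesis r} := by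
  intro hM
  apply not_measurable_IllF
  have h1 : IllF = ((fun T : List ℕ → Bool => rb (Pool.Agent.H85.SC.ST T)) ⁻¹'
      {ρ : ℤ → ℤ → Bool | ∃ r : Setoid ℤ, IsGraph ρ r ∧ Q r ∧ HasSynthesis r})ᶜ := by
    ext T
    rw [Set.mem_compl_iff, Set.mem_preimage, Set.mem_ofPred_eq, illF_iff]
    constructor
    · rintro h ⟨r, hr, -, hr'⟩
      rw [graph_unique hr (rb_graph (Pool.Agent.H35.SC.cod T).1)] at hr'
      exact h hr'
    · intro h h'
      exact h ⟨orbit (pis (Pool.Agent.H85.SC.ST T)) (pis_pis (Pool.Agent.H35.SC.cod T).1),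
        rb_graph (Pool.Agent.H35.SC.cod T).1, hQ T, h'⟩
  rw [h1]
  exact (continuous_rb.measurable hM).compl

/-- reduction of analytic sets -/
theorem reduce (A : Set (ℕ → ℕ)) (hA : AnalyticSet A) :
    ∃ F : (ℕ → ℕ) → (ℤ → ℤ), Continuous F ∧ ∀ x, ∃ h : ∀ n, F x (F x n) = n,
      (x ∈ A ↔ ¬ HasSynthesis (orbit (F x) h)) := by
  obtain ⟨F, hF, hFA⟩ := Pool.Agent.H4.SC.red A hA
  refine ⟨fun x => pis (Pool.Agent.H85.SC.ST (F x)), continuous_pis.comp hF, fun x =>
    ⟨pis_pis (Pool.Agent.H35.SC.cod (F x)).1, (hFA x).trans (illF_iff (F x))⟩⟩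

end Pool.Agent.H93.SY
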