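import Pool.Agent.H93.SY.FIN2

/-!
The complexity of the synthesis property for relations with classes of at most two elements:
final form.
-/

set_option autoImplicit false

open MeasureTheory

namespace Pool.Agent.H93.SY

open Pool.Agent.H85.SC Pool.Agent.H87.Synth

theorem final_pairs :
    AnalyticSet NonSyn ∧
    (∀ A : Set (ℕ → ℕ), AnalyticSet A →
      ∃ F : (ℕ → ℕ) → (ℤ → ℤ), Continuous F ∧ (∀ x n, F x (F x n) = n) ∧
        ∀ x, ∃ r : Setoid ℤ, (∀ m n, r m n ↔ n = m ∨ n = F x m) ∧ (x ∈ A ↔ ¬ HasSynthesis r)) ∧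
    (∀ k : ℕ∞, 2 ≤ k → ¬ MeasurableSet {ρ : ℤ → ℤ → Bool | ∃ r : Setoid ℤ, IsGraph ρ r ∧
      (∀ n, {m | r n m}.encard ≤ k) ∧ HasSynthesis r}) ∧
    ¬ MeasurableSet {ρ : ℤ → ℤ → Bool | ∃ r : Setoid ℤ, IsGraph ρ r ∧ FiniteClasses r ∧
      HasSynthesis r} := by
  refine ⟨final_all.2.1, ?_, ?_, ?_⟩
  · intro A hA
    obtain ⟨F, hF, h⟩ := reduce A hA
    choose h1 h2 using h
    exact ⟨F, hF, h1, fun x => ⟨orbit (F x) (h1 x), fun m n => Iff.rfl, h2 x⟩⟩
  · intro k hk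
    exact not_meas _ fun T n => (orbit_encard (Pool.Agent.H35.SC.cod T).1 n).trans hk
  · refine not_meas _ fun T n => ?_
    have h1 := orbit_encard (Pool.Agent.H35.SC.cod T).1 n
    have h2 : {m | orbit (pis (Pool.Agent.H85.SC.ST T)) (pis_pis (Pool.Agent.H35.SC.cod T).1)
        n m}.encard < ⊤ := lt_of_le_of_lt h1 (by decide)
    exact Set.encard_lt_top_iff.1 h2

end Pool.Agent.H93.SY
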