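import Pool.Agent.H93.SY.EST
import Pool.Agent.H27.SC.Edge
import Pool.Agent.H27.SC.GSM
import Pool.Agent.H41.SC.LAB
import Pool.Agent.H37.SC.FIB
import Pool.Agent.H37.SC.DSJ
import Pool.Agent.H29.SC.CNT

/-!
The relation with classes of at most two elements attached to a tree.
-/

set_option autoImplicit false

namespace Pool.Agent.H93.SY

open Finset Pool.Agent.H85.SC Pool.Agent.H87.Synth Pool.Agent.H27.SC

/-! ### all the landed facts -/

theorem fLAB : T_LAB := Pool.Agent.H41.SC.labm Pool.Agent.H19.SC.UNQ_proof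
theorem fFIB : T_FIB := Pool.Agent.H37.SC.fib fLAB
theorem fDSJ : T_DSJ := Pool.Agent.H37.SC.dsj fLAB Pool.Agent.H19.SC.UNQ_proof
theorem fCNT : T_CNT := Pool.Agent.H29.SC.cntm Pool.Agent.H19.SC.DIV_proof
theorem fCNB : T_CNB := Pool.Agent.H18.SC.cnb Pool.Agent.H19.SC.DIV_proof

/-! ### the well distributed absorbing points -/

/-- `T` is a well distributed subset of the absorbing points -/
def TAp (n i : ℕ) (s : ℤ) (T : Finset ℤ) : Prop :=
  T ⊆ FA n i s ∧ T.card = (EM n i s).card ∧ ∀ w : ℂ, ‖w‖ = 1 →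
    ‖((2 : ℂ) ^ lvl n i / cnt n i) * ∑ z ∈ FA n i s, w ^ z -
      ((2 : ℂ) ^ lvl n i / (EM n i s).card) * ∑ z ∈ T, w ^ z‖ ≤ (1 / 2) ^ slot n i

theorem FA_range (n i : ℕ) (s : ℤ) : ∀ z ∈ FA n i s, 0 ≤ z ∧ z < 2 * NN (slot n i) := by
  intro z hz
  obtain ⟨hR, -⟩ := mem_FA.1 hz
  exact ⟨le_trans (Int.natCast_nonneg _) hR.2.1, hR.2.2.1⟩

theorem TA_exists (n i : ℕ) (s : ℤ) (hv : Valid n i) (hi : i ≠ 1) (hs : s = 1 ∨ s = -1) :
    ∃ T, TAp n i s T := by
  have hA := (fCNT n i hv s hs).1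
  rcases edge_cases n i hv hi with ⟨b, rfl, hb⟩ | ⟨b, n', rfl, rfl, hb⟩ | h
  · have hv' := valid_stay n b hb
    have hE : (EM n (2 ^ (b + 1)) s).card = cnt n (2 ^ b) := by
      rw [EM_stay n b s hb, (fCNT n _ hv' s hs).2.1]
    have hp : 1 ≤ 2 ^ b := Nat.one_le_two_pow
    have h2 : 2 ^ (b + 1) = 2 * 2 ^ b := by rw [pow_succ]; ring
    obtain ⟨T, h3, h4, h5⟩ := est n (2 ^ (b + 1)) n (2 ^ b) hv hv'
      (by unfold slot; rw [h2]; nlinarith) (by unfold slot; rw [h2]; nlinarith)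
      (cnt n (2 ^ b)) le_rfl (by omega) (FA n (2 ^ (b + 1)) s) (FA_range _ _ _) hA
    exact ⟨T, h3, by rw [h4, hE], fun w hw => by rw [hE]; exact h5 w hw⟩
  · have hv' := valid_top n' b hb
    have hE : (EM (n' + 2 ^ b) (2 ^ (b + 1)) s).card = 2 * cnt n' (2 ^ (b + 1) - 1) := by
      rw [EM_top n' b s hb, (fCNT n' _ hv' s hs).2.2]
    have hp : 1 ≤ 2 ^ b := Nat.one_le_two_pow
    have h2 : 2 ^ (b + 1) = 2 * 2 ^ b := by rw [pow_succ]; ring
    obtain ⟨y, hy⟩ : ∃ y, 2 ^ b = y + 1 := ⟨2 ^ b - 1, by omega⟩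
    have h6 : 2 ^ (b + 1) - 1 = 2 * y + 1 := by omega
    obtain ⟨T, h3, h4, h5⟩ := est (n' + 2 ^ b) (2 ^ (b + 1)) n' (2 ^ (b + 1) - 1) hv hv'
      (by unfold slot; rw [h6, h2, hy]; nlinarith) (by unfold slot; rw [h6, h2, hy]; nlinarith)
      (2 * cnt n' (2 ^ (b + 1) - 1)) (by omega) le_rfl (FA (n' + 2 ^ b) (2 ^ (b + 1)) s)
      (FA_range _ _ _) hA
    exact ⟨T, h3, by rw [h4, hE], fun w hw => by rw [hE]; exact h5 w hw⟩
  · have hv' := valid_pred n i hv h
    have hE : (EM n i s).card = 2 * cnt n (i - 1) := by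
      rw [EM_next n i s h, (fCNT n _ hv' s hs).2.2]
    obtain ⟨-, hi2, -⟩ := lg_pred i hv.1 h
    obtain ⟨y, hy⟩ : ∃ y, i = y + 2 := ⟨i - 2, by omega⟩
    obtain ⟨T, h3, h4, h5⟩ := est n i n (i - 1) hv hv'
      (by
        unfold slot; subst hy
        have e1 : (y + 2) ^ 2 = (y + 1) ^ 2 + 2 * y + 3 := by ring
        have e2 : y + 2 - 1 = y + 1 := by omega
        rw [e2]; omega)
      (by
        unfold slot; subst hy
        have e1 : 5 * ((y + 1) ^ 2) = (y + 2) ^ 2 + 4 * (y * y) + 6 * y + 1 := by ring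
        have e2 : y + 2 - 1 = y + 1 := by omega
        rw [e2]; omega)
      (2 * cnt n (i - 1)) (by omega) le_rfl (FA n i s) (FA_range _ _ _) hA
    exact ⟨T, h3, by rw [h4, hE], fun w hw => by rw [hE]; exact h5 w hw⟩

open Classical in
/-- the chosen absorbing points -/
noncomputable def TA (n i : ℕ) (s : ℤ) : Finset ℤ :=
  if h : ∃ T, TAp n i s T then h.choose else ∅

theorem TA_spec (n i : ℕ) (s : ℤ) (hv : Valid n i) (hi : i ≠ 1) (hs : s = 1 ∨ s = -1) :
    TAp n i s (TA n i s) := by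
  have h := TA_exists n i s hv hi hs
  unfold TA
  rw [dif_pos h]
  exact h.choose_spec

theorem TA_sub (n i : ℕ) (s : ℤ) : TA n i s ⊆ FA n i s := by
  unfold TA
  split_ifs with h
  · exact h.choose_spec.1
  · exact Finset.empty_subset _

/-! ### exchange of two finite sets -/

open Classical in
/-- exchange of two disjoint finite sets of the same cardinality -/
noncomputable def swp (A B : Finset ℤ) (z : ℤ) : ℤ :=
  if h : Disjoint A B ∧ A.card = B.card then
    (if ha : z ∈ A then ((Finset.equivOfCardEq h.2) ⟨z, ha⟩ : ℤ)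
      else if hb : z ∈ B then ((Finset.equivOfCardEq h.2).symm ⟨z, hb⟩ : ℤ) else z)
  else z

section swp

variable {A B : Finset ℤ}

theorem swp_left (h : Disjoint A B ∧ A.card = B.card) {z : ℤ} (hz : z ∈ A) : swp A B z ∈ B := by
  unfold swp
  rw [dif_pos h, dif_pos hz]
  exact ((Finset.equivOfCardEq h.2) ⟨z, hz⟩).2

theorem swp_right (h : Disjoint A B ∧ A.card = B.card) {z : ℤ} (hz : z ∈ B) : swp A B z ∈ A := by
  unfold swp
  rw [dif_pos h, dif_neg (fun ha => (Finset.disjoint_left.1 h.1 ha) hz), dif_pos hz]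
  exact ((Finset.equivOfCardEq h.2).symm ⟨z, hz⟩).2

theorem swp_not {z : ℤ} (ha : z ∉ A) (hb : z ∉ B) : swp A B z = z := by
  unfold swp
  split_ifs <;> rfl

theorem swp_mem {z : ℤ} (hz : z ∈ A ∨ z ∈ B) : swp A B z ∈ A ∨ swp A B z ∈ B := by
  by_cases h : Disjoint A B ∧ A.card = B.card
  · rcases hz with hz | hz
    · exact Or.inr (swp_left h hz)
    · exact Or.inl (swp_right h hz)
  · unfold swp
    rw [dif_neg h]
    exact hz

theorem swp_swp (z : ℤ) : swp A B (swp A B z) = z := by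
  by_cases h : Disjoint A B ∧ A.card = B.card
  · by_cases ha : z ∈ A
    · have h1 := swp_left h ha
      have h2 : swp A B z ∉ A := fun h3 => (Finset.disjoint_left.1 h.1 h3) h1
      have e1 : swp A B z = ((Finset.equivOfCardEq h.2) ⟨z, ha⟩ : ℤ) := by
        unfold swp
        rw [dif_pos h, dif_pos ha]
      conv_lhs => unfold swp
      rw [dif_pos h]
      change (if ha : swp A B z ∈ A then ((Finset.equivOfCardEq h.2) ⟨swp A B z, ha⟩ : ℤ)
        else if hb : swp A B z ∈ B then ((Finset.equivOfCardEq h.2).symm ⟨swp A B z, hb⟩ : ℤ)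
          else swp A B z) = z
      rw [dif_neg h2, dif_pos h1]
      have e2 : (⟨swp A B z, h1⟩ : {x // x ∈ B}) = (Finset.equivOfCardEq h.2) ⟨z, ha⟩ :=
        Subtype.ext e1
      rw [e2, Equiv.symm_apply_apply]
    · by_cases hb : z ∈ B
      · have h1 := swp_right h hb
        have e1 : swp A B z = ((Finset.equivOfCardEq h.2).symm ⟨z, hb⟩ : ℤ) := by
          unfold swp
          rw [dif_pos h, dif_neg ha, dif_pos hb]
        conv_lhs => unfold swp
        rw [dif_pos h]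
        change (if ha : swp A B z ∈ A then ((Finset.equivOfCardEq h.2) ⟨swp A B z, ha⟩ : ℤ)
          else if hb : swp A B z ∈ B then ((Finset.equivOfCardEq h.2).symm ⟨swp A B z, hb⟩ : ℤ)
            else swp A B z) = z
        rw [dif_pos h1]
        have e2 : (⟨swp A B z, h1⟩ : {x // x ∈ A}) = (Finset.equivOfCardEq h.2).symm ⟨z, hb⟩ :=
          Subtype.ext e1
        rw [e2, Equiv.apply_symm_apply]
      · rw [swp_not ha hb, swp_not ha hb]
  · have e : ∀ y, swp A B y = y := by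
      intro y
      unfold swp
      rw [dif_neg h]
    rw [e, e]

end swp

/-! ### the involution -/

/-- the exchange attached to a label -/
noncomputable def pil : Lab → ℤ → ℤ
  | Lab.sg _, z => z
  | Lab.inn n i s, z => swp (TA n i s) (EM n i s) z
  | Lab.lst n i, z => swp (FS n i (-1)) (FS n i 1) z
  | Lab.ldr n i, z => swp (FD n i (-1)) (FD n i 1) z

/-- the involution attached to `S` -/
noncomputable def pis (S : Set ℕ) (z : ℤ) : ℤ := pil (lab S z) z

theorem pil_pil (L : Lab) (z : ℤ) : pil L (pil L z) = z := by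
  cases L with
  | sg w => rfl
  | inn n i s => exact swp_swp z
  | lst n i => exact swp_swp z
  | ldr n i => exact swp_swp z

theorem lab_pis {S : Set ℕ} (hS : IsTree S) (z : ℤ) : lab S (pis S z) = lab S z := by
  obtain ⟨f1, f2, f3⟩ := fFIB S hS
  unfold pis
  rcases hlab : lab S z with w | ⟨n, i, s⟩ | ⟨n, i⟩ | ⟨n, i⟩
  · exact hlab
  · simp only [pil]
    obtain ⟨hn, hv, hi, hz⟩ := (f1 n i s z).1 hlab
    by_cases h : z ∈ TA n i s ∨ z ∈ EM n i s
    · rw [f1]
      refine ⟨hn, hv, hi, ?_⟩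
      rcases swp_mem h with h1 | h1
      · exact Or.inl (TA_sub n i s h1)
      · exact Or.inr h1
    · push Not at h
      rw [swp_not h.1 h.2]
      exact hlab
  · simp only [pil]
    obtain ⟨hn, hi, hz⟩ := (f2 n i z).1 hlab
    rw [f2]
    exact ⟨hn, hi, (swp_mem hz.symm).symm⟩
  · simp only [pil]
    obtain ⟨hn, hv, hi, hnS, hz⟩ := (f3 n i z).1 hlab
    rw [f3]
    exact ⟨hn, hv, hi, hnS, (swp_mem hz.symm).symm⟩

theorem pis_pis {S : Set ℕ} (hS : IsTree S) (z : ℤ) : pis S (pis S z) = z := by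
  have h := lab_pis hS z
  unfold pis at h ⊢
  rw [h]
  exact pil_pil _ z

/-! ### the new weights -/

open Classical in
/-- the new weights: the weight of the absorbing points is concentrated on the chosen points -/
noncomputable def GG2 (S : Set ℕ) (z : ℤ) : ℂ :=
  match lab S z with
  | Lab.inn n i s =>
    if z ∈ FA n i s then
      (if z ∈ TA n i s then -((2 : ℂ) ^ lvl n i / (EM n i s).card) * (s : ℂ) else 0)
    else GG S z
  | _ => GG S z

theorem sign_of_inn {S : Set ℕ} (hS : IsTree S) {n i : ℕ} {s z : ℤ}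
    (hlab : lab S z = Lab.inn n i s) : s = 1 ∨ s = -1 := by
  obtain ⟨hn, hV, hi, hzz⟩ := ((fFIB S hS).1 n i s z).1 hlab
  rcases hzz with h | h
  · obtain ⟨hR, h1, -⟩ := mem_FA.1 h
    have := (fLAB.2.2.2.2.2 n i z hR).1
    rwa [h1] at this
  · rcases edge_cases n i hV hi with ⟨b, rfl, hb⟩ | ⟨b, n', rfl, rfl, hb⟩ | he
    · rw [EM_stay n b s hb] at h
      obtain ⟨hR, h1, -⟩ := mem_FS.1 h
      have := (fLAB.2.2.2.2.2 _ _ z hR).1
      rwa [h1] at this
    · rw [EM_top n' b s hb] at h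
      obtain ⟨hR, -, h3⟩ := mem_FD.1 h
      have := (fLAB.2.2.2.2.2 _ _ z hR).2.2
      rwa [h3] at this
    · rw [EM_next n i s he] at h
      obtain ⟨hR, -, h3⟩ := mem_FD.1 h
      have := (fLAB.2.2.2.2.2 _ _ z hR).2.2
      rwa [h3] at this

/-- the weight at an emitting point -/
theorem GG_EM {S : Set ℕ} (hS : IsTree S) {n i : ℕ} (hn : n ∈ S) (hV : Valid n i) (hi : i ≠ 1)
    {s z : ℤ} (hs : s = 1 ∨ s = -1) (hz : z ∈ EM n i s) :
    GG S z = ((2 : ℂ) ^ lvl n i / (EM n i s).card) * (s : ℂ) := by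
  rcases edge_cases n i hV hi with ⟨b, rfl, hb⟩ | ⟨b, n', rfl, rfl, hb⟩ | h
  · rw [EM_stay n b s hb] at hz ⊢
    have hv' := valid_stay n b hb
    rw [GG_FS fLAB hn hs hz, (fCNT n _ hv' s hs).2.1, lvl_pow, lvl_pow]
  · have hn' : n' ∈ S := hS.2 n' b hb hn
    rw [EM_top n' b s hb] at hz ⊢
    have hv' := valid_top n' b hb
    rw [GG_FD fLAB hn' hz, (fCNT n' _ hv' s hs).2.2, lvl_pow, ← lvl_top]
    push_cast
    rw [pow_succ (2 : ℂ) (lvl n' (2 ^ (b + 1) - 1))]
    have h0 : (cnt n' (2 ^ (b + 1) - 1) : ℂ) ≠ 0 := by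
      exact_mod_cast (fCNB _ _ hv').1.ne'
    field_simp
  · rw [EM_next n i s h] at hz ⊢
    have hv' := valid_pred n i hV h
    rw [GG_FD fLAB hn hz, (fCNT n _ hv' s hs).2.2, ← lvl_pred n i hV.1 h]
    push_cast
    rw [pow_succ (2 : ℂ) (lvl n (i - 1))]
    have h0 : (cnt n (i - 1) : ℂ) ≠ 0 := by
      exact_mod_cast (fCNB _ _ hv').1.ne'
    field_simp

theorem GG_sg {S : Set ℕ} {z w : ℤ} (hlab : lab S z = Lab.sg w) : GG S z = 0 := by
  by_cases hex : ∃ n i, n ∈ S ∧ Reg n i z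
  · obtain ⟨n, i, hn, hR⟩ := hex
    have h1 := fLAB.1 S n i z hn hR
    rw [hlab] at h1
    rw [fLAB.2.2.2.1 S n i z hn hR]
    unfold labAt at h1
    split_ifs at h1 with g1 g2 g3
    rw [if_pos ⟨g3, g1, g2⟩]
  · push Not at hex
    exact fLAB.2.2.2.2.1 S z fun n i hn => hex n i hn

/-- the new weights are odd -/
theorem GG2_pis {S : Set ℕ} (hS : IsTree S) (z : ℤ) : GG2 S (pis S z) = -GG2 S z := by
  obtain ⟨f1, f2, f3⟩ := fFIB S hS
  have hl := lab_pis hS z
  rcases hlab : lab S z with w | ⟨n, i, s⟩ | ⟨n, i⟩ | ⟨n, i⟩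
  · have e : pis S z = z := by unfold pis; rw [hlab]; rfl
    rw [e]
    have : GG2 S z = 0 := by
      unfold GG2
      rw [hlab]
      exact GG_sg hlab
    rw [this, neg_zero]
  · rw [hlab] at hl
    obtain ⟨hn, hv, hi, hz⟩ := (f1 n i s z).1 hlab
    have hs := sign_of_inn hS hlab
    obtain ⟨t1, t2, -⟩ := TA_spec n i s hv hi hs
    have hdis : Disjoint (TA n i s) (EM n i s) :=
      Finset.disjoint_of_subset_left t1 (fDSJ.1 n i s hv hi)
    have hd : Disjoint (TA n i s) (EM n i s) ∧ (TA n i s).card = (EM n i s).card := ⟨hdis, t2⟩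
    have e : pis S z = swp (TA n i s) (EM n i s) z := by unfold pis; rw [hlab]; rfl
    have hdFA := fDSJ.1 n i s hv hi
    by_cases h1 : z ∈ TA n i s
    · have h2 : pis S z ∈ EM n i s := by rw [e]; exact swp_left hd h1
      have h3 : pis S z ∉ FA n i s := fun h4 => (Finset.disjoint_left.1 hdFA h4) h2
      have e1 : GG2 S (pis S z) = GG S (pis S z) := by
        unfold GG2
        rw [hl]
        simp only [h3, if_false]
      have e2 : GG2 S z = -((2 : ℂ) ^ lvl n i / (EM n i s).card) * (s : ℂ) := by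
        unfold GG2
        rw [hlab]
        simp only [h1, t1 h1, if_true]
      rw [e1, e2, GG_EM hS hn hv hi hs h2]
      ring
    · by_cases h2 : z ∈ EM n i s
      · have h3 : pis S z ∈ TA n i s := by rw [e]; exact swp_right hd h2
        have h4 : z ∉ FA n i s := fun h5 => (Finset.disjoint_left.1 hdFA h5) h2
        have e1 : GG2 S z = GG S z := by
          unfold GG2
          rw [hlab]
          simp only [h4, if_false]
        have e2 : GG2 S (pis S z) = -((2 : ℂ) ^ lvl n i / (EM n i s).card) * (s : ℂ) := by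
          unfold GG2
          rw [hl]
          simp only [h3, t1 h3, if_true]
        rw [e1, e2, GG_EM hS hn hv hi hs h2]
        ring
      · have h3 : z ∈ FA n i s := hz.resolve_right h2
        have e0 : pis S z = z := by rw [e]; exact swp_not h1 h2
        have e1 : GG2 S z = 0 := by
          unfold GG2
          rw [hlab]
          simp only [h3, h1, if_true, if_false]
        rw [e0, e1, neg_zero]
  · rw [hlab] at hl
    obtain ⟨hn, hi, hz⟩ := (f2 n i z).1 hlab
    have hV : Valid n i := by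
      rcases hz with h | h <;> exact (mem_FS.1 h).1.1
    have hd : Disjoint (FS n i (-1)) (FS n i 1) ∧ (FS n i (-1)).card = (FS n i 1).card :=
      ⟨(fDSJ.2.1 n i).2.1.symm, by
        rw [(fCNT n i hV (-1) (Or.inr rfl)).2.1, (fCNT n i hV 1 (Or.inl rfl)).2.1]⟩
    have e : pis S z = swp (FS n i (-1)) (FS n i 1) z := by unfold pis; rw [hlab]; rfl
    have e1 : GG2 S (pis S z) = GG S (pis S z) := by unfold GG2; rw [hl]
    have e2 : GG2 S z = GG S z := by unfold GG2; rw [hlab]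
    rw [e1, e2]
    rcases hz with h | h
    · have h2 : pis S z ∈ FS n i (-1) := by rw [e]; exact swp_right hd h
      rw [GG_FS fLAB hn (Or.inr rfl) h2, GG_FS fLAB hn (Or.inl rfl) h]
      push_cast; ring
    · have h2 : pis S z ∈ FS n i 1 := by rw [e]; exact swp_left hd h
      rw [GG_FS fLAB hn (Or.inl rfl) h2, GG_FS fLAB hn (Or.inr rfl) h]
      push_cast; ring
  · rw [hlab] at hl
    obtain ⟨hn, hV, hi, hnS, hz⟩ := (f3 n i z).1 hlab
    have hd : Disjoint (FD n i (-1)) (FD n i 1) ∧ (FD n i (-1)).card = (FD n i 1).card :=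
      ⟨(fDSJ.2.1 n i).2.2.symm, by
        rw [(fCNT n i hV (-1) (Or.inr rfl)).2.2, (fCNT n i hV 1 (Or.inl rfl)).2.2]⟩
    have e : pis S z = swp (FD n i (-1)) (FD n i 1) z := by unfold pis; rw [hlab]; rfl
    have e1 : GG2 S (pis S z) = GG S (pis S z) := by unfold GG2; rw [hl]
    have e2 : GG2 S z = GG S z := by unfold GG2; rw [hlab]
    rw [e1, e2]
    rcases hz with h | h
    · have h2 : pis S z ∈ FD n i (-1) := by rw [e]; exact swp_right hd h
      rw [GG_FD fLAB hn h2, GG_FD fLAB hn h]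
      push_cast; ring
    · have h2 : pis S z ∈ FD n i 1 := by rw [e]; exact swp_left hd h
      rw [GG_FD fLAB hn h2, GG_FD fLAB hn h]
      push_cast; ring

end Pool.Agent.H93.SY
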