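import Pool.Agent.H93.SY.BC

/-!
A well distributed subset of given cardinality.
-/

set_option autoImplicit false

namespace Pool.Agent.H93.SY

open Finset

theorem pow_diff_le (w v : ℂ) (hw : ‖w‖ = 1) (hv : ‖v‖ = 1) (n : ℕ) :
    ‖w ^ n - v ^ n‖ ≤ n * ‖w - v‖ := by
  induction n with
  | zero => simp
  | succ n ih =>
    have e : w ^ (n + 1) - v ^ (n + 1) = w ^ n * (w - v) + (w ^ n - v ^ n) * v := by ring
    rw [e]
    refine (norm_add_le _ _).trans ?_
    rw [norm_mul, norm_mul, norm_pow, hw, hv, one_pow, one_mul, mul_one]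
    push_cast
    linarith

theorem zpow_diff_le (w v : ℂ) (hw : ‖w‖ = 1) (hv : ‖v‖ = 1) (z : ℤ) (hz : 0 ≤ z) (L : ℝ)
    (hL : (z : ℝ) ≤ L) : ‖w ^ z - v ^ z‖ ≤ L * ‖w - v‖ := by
  obtain ⟨n, rfl⟩ := Int.eq_ofNat_of_zero_le hz
  rw [zpow_natCast, zpow_natCast]
  refine (pow_diff_le w v hw hv n).trans ?_
  apply mul_le_mul_of_nonneg_right _ (norm_nonneg _)
  simpa using hL

theorem norm_zpow_one (w : ℂ) (hw : ‖w‖ = 1) (z : ℤ) : ‖w ^ z‖ = 1 := by
  rw [norm_zpow, hw, one_zpow]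

/-- every point of the circle is close to a root of unity -/
theorem near_root (M : ℕ) (hM : 0 < M) (w : ℂ) (hw : ‖w‖ = 1) :
    ∃ k : Fin M, ‖w - Complex.exp (2 * Real.pi * ((k : ℕ) / M : ℝ) * Complex.I)‖ ≤
      2 * Real.pi / M := by
  have hM' : (0 : ℝ) < M := by exact_mod_cast hM
  -- an argument in [0, 2 pi)
  obtain ⟨θ, h0, h1, hθ⟩ : ∃ θ : ℝ, 0 ≤ θ ∧ θ < 2 * Real.pi ∧ w = Complex.exp (θ * Complex.I) := by
    have hw2 : w = Complex.exp (w.arg * Complex.I) := by
      have := Complex.norm_mul_exp_arg_mul_I w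
      rw [hw, Complex.ofReal_one, one_mul] at this
      exact this.symm
    have h3 := Complex.neg_pi_lt_arg w
    have h4 := Complex.arg_le_pi w
    have hpi := Real.pi_pos
    rcases lt_or_ge w.arg 0 with h | h
    · refine ⟨w.arg + 2 * Real.pi, by linarith, by linarith, ?_⟩
      rw [hw2]
      push_cast
      rw [← hw2, add_mul, Complex.exp_add, Complex.exp_two_pi_mul_I, mul_one]
      exact hw2
    · exact ⟨w.arg, h, by linarith, hw2⟩
  have hx0 : 0 ≤ θ * M / (2 * Real.pi) := by positivity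
  set k : ℕ := ⌊θ * M / (2 * Real.pi)⌋₊ with hk
  have hpi := Real.pi_pos
  have hk1 : (k : ℝ) ≤ θ * M / (2 * Real.pi) := Nat.floor_le hx0
  have hk2 : θ * M / (2 * Real.pi) < k + 1 := Nat.lt_floor_add_one _
  have hkM : k < M := by
    have h5 : (k : ℝ) < M := by
      refine lt_of_le_of_lt hk1 ?_
      rw [div_lt_iff₀ (by positivity)]
      nlinarith
    exact_mod_cast h5
  refine ⟨⟨k, hkM⟩, ?_⟩
  have e1 : w - Complex.exp (2 * Real.pi * ((k : ℕ) / M : ℝ) * Complex.I) =
      Complex.exp (2 * Real.pi * ((k : ℕ) / M : ℝ) * Complex.I) *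
        (Complex.exp (Complex.I * ((θ - 2 * Real.pi * (k / M) : ℝ) : ℂ)) - 1) := by
    rw [mul_sub, ← Complex.exp_add, mul_one, hθ]
    congr 2
    push_cast
    ring
  rw [e1, norm_mul]
  have e2 : ‖Complex.exp (2 * Real.pi * ((k : ℕ) / M : ℝ) * Complex.I)‖ = 1 := by
    have : (2 * Real.pi * ((k : ℕ) / M : ℝ) * Complex.I : ℂ) =
      ((2 * Real.pi * ((k : ℕ) / M : ℝ) : ℝ) : ℂ) * Complex.I := by push_cast; ring
    rw [this, Complex.norm_exp_ofReal_mul_I]
  rw [e2, one_mul]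
  refine (Real.norm_exp_I_mul_ofReal_sub_one_le).trans ?_
  rw [Real.norm_eq_abs, abs_of_nonneg]
  · have : θ < 2 * Real.pi * (k + 1) / M := by
      rw [lt_div_iff₀ hM']
      rw [div_lt_iff₀ (by positivity)] at hk2
      linarith
    have h6 : 2 * Real.pi * ((k : ℝ) + 1) / M = 2 * Real.pi * (k / M) + 2 * Real.pi / M := by
      field_simp
    linarith
  · have : 2 * Real.pi * (k / M) ≤ θ := by
      rw [le_div_iff₀ (by positivity)] at hk1
      rw [← mul_div_assoc, div_le_iff₀ hM']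
      linarith
    linarith

/-- enumeration of a finite set of integers -/
theorem exists_enum (A : Finset ℤ) : ∃ σ : ℕ → ℤ, Set.InjOn σ (range A.card : Set ℕ) ∧
    image σ (range A.card) = A := by
  classical
  refine ⟨fun k => if h : k < A.card then (A.equivFin.symm ⟨k, h⟩ : ℤ) else 0, ?_, ?_⟩
  · intro a ha b hb hab
    rw [coe_range, Set.mem_Iio] at ha hb
    simp only [ha, hb, dif_pos] at hab
    have h1 := A.equivFin.symm.injective (Subtype.ext hab)
    simpa using h1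
  · ext z
    rw [mem_image]
    constructor
    · rintro ⟨k, hk, rfl⟩
      rw [mem_range] at hk
      simp only [hk, dif_pos]
      exact (A.equivFin.symm ⟨k, hk⟩).2
    · intro hz
      refine ⟨(A.equivFin ⟨z, hz⟩ : ℕ), ?_, ?_⟩
      · rw [mem_range]
        exact (A.equivFin ⟨z, hz⟩).2
      · simp

/-- **selection** -/
theorem sel (A : Finset ℤ) (N : ℕ) (hA : ∀ z ∈ A, 0 ≤ z ∧ z < 2 * N) (e : ℕ) (he : 1 ≤ e)
    (hec : e ≤ A.card) (l : ℝ) (hl0 : 0 < l) (hl : l ≤ 1 / 2) (M : ℕ) (hM : 0 < M) :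
    ∃ T ⊆ A, T.card = e ∧ ∀ w : ℂ, ‖w‖ = 1 →
      ‖(1 / (A.card : ℂ)) * ∑ z ∈ A, w ^ z - (1 / (e : ℂ)) * ∑ z ∈ T, w ^ z‖ ≤
        2 * e / A.card + 2 * (Real.log (4 * M) / (l * e) + 4 * l) + 8 * Real.pi * N / M := by
  classical
  obtain ⟨σ, hσi, hσA⟩ := exists_enum A
  set c := A.card with hc
  set q := c / e with hq
  have hq1 : 1 ≤ q := (Nat.one_le_div_iff (by omega)).2 hec
  have heq : e * q ≤ c := Nat.mul_div_le c e
  have hceq : c < e * q + e := by
    have h1 := Nat.div_add_mod c e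
    have h2 := Nat.mod_lt c (show 0 < e by omega)
    rw [← hq] at h1
    omega
  -- blocks
  set B : ℕ → Finset ℤ := fun j => image σ (Ico (j * q) ((j + 1) * q)) with hB
  have hbl : ∀ j < e, (j + 1) * q ≤ c := fun j hj =>
    (Nat.mul_le_mul_right q (by omega)).trans heq
  have hsub : ∀ j < e, Ico (j * q) ((j + 1) * q) ⊆ range c := by
    intro j hj k hk
    rw [mem_Ico] at hk
    rw [mem_range]
    have := hbl j hj
    omega
  have hinj : ∀ j < e, Set.InjOn σ (Ico (j * q) ((j + 1) * q) : Set ℕ) := by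
    intro j hj
    apply hσi.mono
    exact_mod_cast hsub j hj
  have hBcard : ∀ j < e, (B j).card = q := by
    intro j hj
    simp only [hB]
    rw [card_image_of_injOn (hinj j hj), Nat.card_Ico, Nat.add_mul, one_mul,
      Nat.add_sub_cancel_left]
  have hBne : ∀ j < e, (B j).Nonempty := by
    intro j hj
    rw [← card_pos, hBcard j hj]
    omega
  have hBA : ∀ j < e, B j ⊆ A := by
    intro j hj
    rw [← hσA]
    exact image_subset_image (hsub j hj)
  -- the functions
  let ζ : Fin M → ℂ := fun k => Complex.exp (2 * Real.pi * ((k : ℕ) / M : ℝ) * Complex.I)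
  have hζ : ∀ k, ‖ζ k‖ = 1 := by
    intro k
    simp only [ζ]
    have : (2 * Real.pi * ((k : ℕ) / M : ℝ) * Complex.I : ℂ) =
      ((2 * Real.pi * ((k : ℕ) / M : ℝ) : ℝ) : ℂ) * Complex.I := by push_cast; ring
    rw [this, Complex.norm_exp_ofReal_mul_I]
  let φ : Fin M × Bool → ℤ → ℝ := fun p z => if p.2 then (ζ p.1 ^ z).re else (ζ p.1 ^ z).im
  have hφ : ∀ p z, |φ p z| ≤ 1 := by
    intro p z
    simp only [φ]
    have h1 := norm_zpow_one (ζ p.1) (hζ _) z
    split_ifs
    · rw [← h1]; exact Complex.abs_re_le_norm _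
    · rw [← h1]; exact Complex.abs_im_le_norm _
  obtain ⟨t, ht, hX⟩ := choice_bal φ hφ B l hl0 hl e hBne
  have hcardι : Fintype.card (Fin M × Bool) = 2 * M := by
    rw [Fintype.card_prod, Fintype.card_fin, Fintype.card_bool]; ring
  rw [hcardι] at hX
  -- injectivity of t
  have htinj : Set.InjOn t (range e : Set ℕ) := by
    intro a ha b hb hab
    rw [coe_range, Set.mem_Iio] at ha hb
    have h1 := ht a ha
    have h2 := ht b hb
    rw [hab] at h1
    simp only [hB, mem_image, mem_Ico] at h1 h2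
    obtain ⟨x, ⟨hx1, hx2⟩, hx⟩ := h1
    obtain ⟨y, ⟨hy1, hy2⟩, hy⟩ := h2
    have hxy : x = y := by
      apply hσi
      · rw [coe_range, Set.mem_Iio]; have := hbl a ha; omega
      · rw [coe_range, Set.mem_Iio]; have := hbl b hb; omega
      · rw [hx, hy]
    subst hxy
    rcases lt_trichotomy a b with h | h | h
    · exfalso
      have h3 : (a + 1) * q ≤ b * q := Nat.mul_le_mul_right q (by omega)
      omega
    · exact h
    · exfalso
      have h3 : (b + 1) * q ≤ a * q := Nat.mul_le_mul_right q (by omega)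
      omega
  refine ⟨image t (range e), ?_, ?_, ?_⟩
  · intro z hz
    rw [mem_image] at hz
    obtain ⟨j, hj, rfl⟩ := hz
    rw [mem_range] at hj
    exact hBA j hj (ht j hj)
  · rw [card_image_of_injOn htinj, card_range]
  intro w hw
  have hc0 : (0 : ℝ) < c := by
    have : 0 < c := by omega
    exact_mod_cast this
  have he0 : (0 : ℝ) < e := by exact_mod_cast he
  have hq0 : (0 : ℝ) < q := by exact_mod_cast hq1
  -- the deviation
  let D : ℂ → ℂ := fun w => ∑ j ∈ range e, w ^ (t j) - (1 / (q : ℂ)) * ∑ k ∈ range (e * q), w ^ (σ k)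
  have hrange : ∀ f : ℕ → ℂ, ∑ k ∈ range (e * q), f k =
      ∑ j ∈ range e, ∑ k ∈ Ico (j * q) ((j + 1) * q), f k := by
    intro f
    have : ∀ e' : ℕ, ∑ k ∈ range (e' * q), f k =
        ∑ j ∈ range e', ∑ k ∈ Ico (j * q) ((j + 1) * q), f k := by
      intro e'
      induction e' with
      | zero => simp
      | succ e' ih =>
        rw [Finset.sum_range_succ, ← ih, range_eq_Ico, range_eq_Ico,
          Finset.sum_Ico_consecutive _ (Nat.zero_le _) (Nat.mul_le_mul_right q (by omega))]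
    exact this e
  have hDdev : ∀ w : ℂ, D w = ∑ j ∈ range e, (w ^ (t j) - (∑ y ∈ B j, w ^ y) / (B j).card) := by
    intro w
    simp only [D]
    rw [hrange, Finset.sum_sub_distrib, Finset.mul_sum]
    congr 1
    apply Finset.sum_congr rfl
    intro j hj
    rw [mem_range] at hj
    rw [hBcard j hj]
    simp only [hB]
    rw [Finset.sum_image (hinj j hj)]
    ring
  have hDζ : ∀ k, ‖D (ζ k)‖ ≤ 2 * (Real.log (4 * M) / l + 4 * l * e) := by
    intro k
    have h1 := hX (k, true)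
    have h2 := hX (k, false)
    have e1 : ∑ j ∈ range e, dev (B j) (φ (k, true)) (t j) = (D (ζ k)).re := by
      rw [hDdev, Complex.re_sum]
      apply Finset.sum_congr rfl
      intro j _
      simp only [dev, φ, if_true]
      rw [Complex.sub_re, ← Complex.ofReal_natCast, Complex.div_ofReal_re, Complex.re_sum]
    have e2 : ∑ j ∈ range e, dev (B j) (φ (k, false)) (t j) = (D (ζ k)).im := by
      rw [hDdev, Complex.im_sum]
      apply Finset.sum_congr rfl
      intro j _
      simp only [dev, φ, Bool.false_eq_true, if_false]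
      rw [Complex.sub_im, ← Complex.ofReal_natCast, Complex.div_ofReal_im, Complex.im_sum]
    rw [e1] at h1
    rw [e2] at h2
    have h3 := Complex.norm_le_abs_re_add_abs_im (D (ζ k))
    have h4 : (2 * ((2 * M : ℕ) : ℝ)) = 4 * M := by push_cast; ring
    rw [h4] at h1 h2
    linarith
  -- the general point
  obtain ⟨k, hk⟩ := near_root M hM w hw
  have htz : ∀ j < e, 0 ≤ t j ∧ ((t j : ℤ) : ℝ) ≤ 2 * N := by
    intro j hj
    have h1 := hA (t j) (hBA j hj (ht j hj))
    refine ⟨h1.1, ?_⟩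
    have : ((t j : ℤ) : ℝ) < ((2 * N : ℤ) : ℝ) := by exact_mod_cast h1.2
    push_cast at this
    linarith
  have hσz : ∀ k < c, 0 ≤ σ k ∧ ((σ k : ℤ) : ℝ) ≤ 2 * N := by
    intro k hk
    have hm : σ k ∈ A := by
      rw [← hσA, mem_image]
      exact ⟨k, mem_range.2 hk, rfl⟩
    have h1 := hA _ hm
    refine ⟨h1.1, ?_⟩
    have : ((σ k : ℤ) : ℝ) < ((2 * N : ℤ) : ℝ) := by exact_mod_cast h1.2
    push_cast at this
    linarith
  have hDw : ‖D w‖ ≤ 2 * (Real.log (4 * M) / l + 4 * l * e) + 8 * Real.pi * N / M * e := by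
    have h1 : ‖D w - D (ζ k)‖ ≤ 4 * N * e * (2 * Real.pi / M) := by
      have e1 : D w - D (ζ k) = ∑ j ∈ range e, (w ^ (t j) - ζ k ^ (t j)) -
          (1 / (q : ℂ)) * ∑ i ∈ range (e * q), (w ^ (σ i) - ζ k ^ (σ i)) := by
        simp only [D, Finset.sum_sub_distrib]
        ring
      rw [e1]
      refine (norm_sub_le _ _).trans ?_
      have h2 : ‖∑ j ∈ range e, (w ^ (t j) - ζ k ^ (t j))‖ ≤ e * (2 * N * (2 * Real.pi / M)) := by
        refine (norm_sum_le _ _).trans ?_
        have : ∀ j ∈ range e, ‖w ^ (t j) - ζ k ^ (t j)‖ ≤ 2 * N * (2 * Real.pi / M) := by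
          intro j hj
          rw [mem_range] at hj
          refine (zpow_diff_le w (ζ k) hw (hζ k) (t j) (htz j hj).1 (2 * N) (htz j hj).2).trans ?_
          exact mul_le_mul_of_nonneg_left hk (by positivity)
        refine (Finset.sum_le_sum this).trans ?_
        rw [Finset.sum_const, card_range, nsmul_eq_mul]
      have h3 : ‖(1 / (q : ℂ)) * ∑ i ∈ range (e * q), (w ^ (σ i) - ζ k ^ (σ i))‖ ≤
          e * (2 * N * (2 * Real.pi / M)) := by
        rw [norm_mul, norm_div, norm_one, Complex.norm_natCast]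
        have h4 : ‖∑ i ∈ range (e * q), (w ^ (σ i) - ζ k ^ (σ i))‖ ≤
            (e * q : ℕ) * (2 * N * (2 * Real.pi / M)) := by
          refine (norm_sum_le _ _).trans ?_
          have : ∀ i ∈ range (e * q), ‖w ^ (σ i) - ζ k ^ (σ i)‖ ≤ 2 * N * (2 * Real.pi / M) := by
            intro i hi
            rw [mem_range] at hi
            have hi' : i < c := by omega
            refine (zpow_diff_le w (ζ k) hw (hζ k) (σ i) (hσz i hi').1 (2 * N)
              (hσz i hi').2).trans ?_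
            exact mul_le_mul_of_nonneg_left hk (by positivity)
          refine (Finset.sum_le_sum this).trans ?_
          rw [Finset.sum_const, card_range, nsmul_eq_mul]
        calc 1 / (q : ℝ) * ‖∑ i ∈ range (e * q), (w ^ (σ i) - ζ k ^ (σ i))‖ ≤
            1 / (q : ℝ) * ((e * q : ℕ) * (2 * N * (2 * Real.pi / M))) :=
              mul_le_mul_of_nonneg_left h4 (by positivity)
          _ = e * (2 * N * (2 * Real.pi / M)) := by
              push_cast
              field_simp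
      refine (add_le_add h2 h3).trans (le_of_eq ?_)
      ring
    have h2 : ‖D w‖ ≤ ‖D (ζ k)‖ + ‖D w - D (ζ k)‖ := by
      have : D w = D (ζ k) + (D w - D (ζ k)) := by ring
      conv_lhs => rw [this]
      exact norm_add_le _ _
    refine h2.trans (add_le_add (hDζ k) (h1.trans (le_of_eq ?_)))
    ring
  -- conclusion
  have hsumA : ∑ z ∈ A, w ^ z = ∑ i ∈ range c, w ^ (σ i) := by
    conv_lhs => rw [← hσA]
    rw [Finset.sum_image hσi]
  have hsumT : ∑ z ∈ image t (range e), w ^ z = ∑ j ∈ range e, w ^ (t j) := by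
    rw [Finset.sum_image htinj]
  have hsplit : ∑ i ∈ range c, w ^ (σ i) = ∑ i ∈ range (e * q), w ^ (σ i) +
      ∑ i ∈ Ico (e * q) c, w ^ (σ i) := by
    rw [range_eq_Ico, range_eq_Ico, Finset.sum_Ico_consecutive _ (Nat.zero_le _) heq]
  rw [hsumA, hsumT]
  have e1 : (1 / (c : ℂ)) * ∑ i ∈ range c, w ^ (σ i) - (1 / (e : ℂ)) * ∑ j ∈ range e, w ^ (t j) =
      (1 / (c : ℂ) - 1 / ((e * q : ℕ) : ℂ)) * ∑ i ∈ range (e * q), w ^ (σ i) +
      (1 / (c : ℂ)) * ∑ i ∈ Ico (e * q) c, w ^ (σ i) - (1 / (e : ℂ)) * D w := by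
    rw [hsplit]
    simp only [D]
    push_cast
    have h1 : (e : ℂ) ≠ 0 := by exact_mod_cast he0.ne'
    have h2 : (q : ℂ) ≠ 0 := by exact_mod_cast hq0.ne'
    field_simp
    ring
  rw [e1]
  have hn1 : ‖∑ i ∈ range (e * q), w ^ (σ i)‖ ≤ (e * q : ℕ) := by
    refine (norm_sum_le _ _).trans ?_
    rw [Finset.sum_congr rfl fun i _ => norm_zpow_one w hw (σ i)]
    simp
  have hn2 : ‖∑ i ∈ Ico (e * q) c, w ^ (σ i)‖ ≤ e := by
    refine (norm_sum_le _ _).trans ?_
    rw [Finset.sum_congr rfl fun i _ => norm_zpow_one w hw (σ i)]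
    rw [Finset.sum_const, Nat.card_Ico, nsmul_eq_mul, mul_one]
    have : c - e * q ≤ e := by omega
    exact_mod_cast this
  have hA1 : ‖(1 / (c : ℂ) - 1 / ((e * q : ℕ) : ℂ)) * ∑ i ∈ range (e * q), w ^ (σ i)‖ ≤ e / c := by
    have hpos : (0 : ℝ) < ((e * q : ℕ) : ℝ) := by push_cast; positivity
    have h1 : ‖(1 / (c : ℂ) - 1 / ((e * q : ℕ) : ℂ))‖ = 1 / ((e * q : ℕ) : ℝ) - 1 / (c : ℝ) := by
      have : (1 / (c : ℂ) - 1 / ((e * q : ℕ) : ℂ)) =
          ((-(1 / ((e * q : ℕ) : ℝ) - 1 / (c : ℝ)) : ℝ) : ℂ) := by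
        push_cast
        ring
      rw [this, Complex.norm_real, Real.norm_eq_abs, abs_neg, abs_of_nonneg]
      rw [sub_nonneg]
      apply one_div_le_one_div_of_le hpos
      exact_mod_cast heq
    rw [norm_mul, h1]
    have h2 : 0 ≤ 1 / ((e * q : ℕ) : ℝ) - 1 / (c : ℝ) := by
      rw [← h1]; exact norm_nonneg _
    refine (mul_le_mul_of_nonneg_left hn1 h2).trans ?_
    rw [sub_mul, one_div_mul_cancel hpos.ne']
    have h3 : (c : ℝ) ≤ ((e * q : ℕ) : ℝ) + e := by exact_mod_cast hceq.le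
    rw [sub_le_iff_le_add, one_div, inv_mul_eq_div, ← add_div, le_div_iff₀ hc0]
    linarith
  have hA2 : ‖(1 / (c : ℂ)) * ∑ i ∈ Ico (e * q) c, w ^ (σ i)‖ ≤ e / c := by
    rw [norm_mul, norm_div, norm_one, Complex.norm_natCast, one_div, inv_mul_eq_div]
    exact div_le_div_of_nonneg_right hn2 hc0.le
  have hA3 : ‖(1 / (e : ℂ)) * D w‖ ≤ 2 * (Real.log (4 * M) / (l * e) + 4 * l) +
      8 * Real.pi * N / M := by
    rw [norm_mul, norm_div, norm_one, Complex.norm_natCast, one_div, inv_mul_eq_div,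
      div_le_iff₀ he0]
    refine hDw.trans (le_of_eq ?_)
    field_simp
  calc _ ≤ ‖(1 / (c : ℂ) - 1 / ((e * q : ℕ) : ℂ)) * ∑ i ∈ range (e * q), w ^ (σ i)‖ +
        ‖(1 / (c : ℂ)) * ∑ i ∈ Ico (e * q) c, w ^ (σ i)‖ + ‖(1 / (e : ℂ)) * D w‖ :=
        (norm_sub_le _ _).trans (add_le_add (norm_add_le _ _) le_rfl)
    _ ≤ e / c + e / c + (2 * (Real.log (4 * M) / (l * e) + 4 * l) + 8 * Real.pi * N / M) :=
        add_le_add (add_le_add hA1 hA2) hA3
    _ = _ := by ring

end Pool.Agent.H93.SY
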